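import Mathlib

/-! Ulam decompositions of uniform hypergraphs: definitions and the statements of all tasks. -/

set_option linter.unusedVariables false

namespace H773U

open Finset

/-- an edge set (hypergraph) on the vertex set `Fin n` -/
abbrev ES (n : ℕ) := Finset (Finset (Fin n))

/-- the vertices covered by an edge set -/
def cov {n : ℕ} (E : ES n) : Finset (Fin n) := E.biUnion id

/-- two edge sets, viewed as hypergraphs on the vertices they cover, are isomorphic -/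
def Iso {n : ℕ} (E E' : ES n) : Prop :=
  ∃ f : {v // v ∈ cov E} ≃ {v // v ∈ cov E'},
    ∀ s : Finset {v // v ∈ cov E},
      s.map (Function.Embedding.subtype _) ∈ E ↔
        (s.map f.toEmbedding).map (Function.Embedding.subtype _) ∈ E'

/-- a U-decomposition of the family `H` into `t` parts -/
def IsUDecomp {n k : ℕ} (H : Fin k → ES n) (t : ℕ) : Prop :=
  ∃ E : Fin k → Fin t → ES n,
    (∀ i j j', j ≠ j' → Disjoint (E i j) (E i j')) ∧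
    (∀ i, Finset.univ.biUnion (E i) = H i) ∧
    ∀ j i i', Iso (E i j) (E i' j)

/-- `t` parts suffice for all families of `k` `r`-graphs on `n` vertices with equally many edges -/
def Suff (k n r t : ℕ) : Prop :=
  ∀ H : Fin k → ES n, (∀ i, ∀ e ∈ H i, e.card = r) →
    (∀ i i', (H i).card = (H i').card) → ∃ t' ≤ t, IsUDecomp H t'

/-- the Ulam decomposition number `U_k(n,r)` -/
noncomputable def U (k n r : ℕ) : ℕ := sInf {t : ℕ | Suff k n r t}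

/-! ### working definitions -/

/-- image of an edge set under a permutation of the vertices -/
def img {n : ℕ} (σ : Equiv.Perm (Fin n)) (E : ES n) : ES n := E.image (fun s => s.image σ)

/-- all triples -/
def K3 (n : ℕ) : ES n := powersetCard 3 univ

/-- triples of vertices, indexed by the three roles -/
abbrev Tr (n : ℕ) := Finset (Fin 3 → Fin n)

/-- number of `a`-vertices -/
def nn {n : ℕ} (S : Tr n) (a : Fin 3) : ℕ := (S.image (fun p => p a)).card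

/-- number of `(a,b)`-pairs -/
def mm {n : ℕ} (S : Tr n) (a b : Fin 3) : ℕ := (S.image (fun p => (p a, p b))).card

/-- degree -/
def dg {n : ℕ} (S : Tr n) (a : Fin 3) (v : Fin n) : ℕ := (S.filter (fun p => p a = v)).card

/-- codegree -/
def cg {n : ℕ} (S : Tr n) (a b : Fin 3) (v v' : Fin n) : ℕ :=
  (S.filter (fun p => p a = v ∧ p b = v')).card

/-- number of dyadic classes of one statistic -/
def BB (n : ℕ) : ℕ := Nat.log 2 (n ^ 2) + 1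

/-- number of classes of the six statistics -/
def Lam (n : ℕ) : ℕ := (BB n) ^ 6

/-- the tree-like 3-graph `T(t,u,w)` is contained in `H` -/
def ContainsT {n : ℕ} (H : ES n) (t u w : ℕ) : Prop :=
  ∃ φ : (Fin t ⊕ (Fin t × Fin u)) ⊕ (Fin t × Fin u × Fin w) → Fin n, Function.Injective φ ∧
    ∀ i j l, ({φ (.inl (.inl i)), φ (.inl (.inr (i, j))), φ (.inr (i, j, l))} : Finset (Fin n)) ∈ H

/-- a common subgraph `D` of the family `H` -/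
def IsCommon {n k : ℕ} (H D : Fin k → ES n) : Prop :=
  (∀ i, D i ⊆ H i) ∧ (∀ i i', Iso (D i) (D i')) ∧ ∀ i i', (D i).card = (D i').card

/-! ### tasks -/

/-- ISO1: the image under a permutation is isomorphic. -/
def S_ISO1 : Prop := ∀ (n : ℕ) (σ : Equiv.Perm (Fin n)) (E : ES n), Iso E (img σ E)

/-- ISO2: isomorphic edge sets are images of each other under a permutation. -/
def S_ISO2 : Prop := ∀ (n : ℕ) (E E' : ES n), Iso E E' → ∃ σ : Equiv.Perm (Fin n), img σ E = E'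

/-- GR: greedy decomposition. -/
def S_GR : Prop := ∀ (n k : ℕ) (M : ℝ), 1 ≤ n → 1 ≤ k → 1 ≤ M →
  (∀ (H : Fin k → ES n) (e : ℕ), 1 ≤ e → (∀ i, ∀ s ∈ H i, s.card = 3) → (∀ i, (H i).card = e) →
    ∃ D : Fin k → ES n, IsCommon H D ∧ ∀ i, (e : ℝ) ≤ M * ((D i).card : ℝ)) →
  ∃ t : ℕ, (t : ℝ) ≤ M * (1 + 3 * Real.log n) ∧ Suff k n 3 t

/-- OV1: averaging over permutations. -/
def S_OV1 : Prop := ∀ (n : ℕ) (D H : ES n), D ⊆ K3 n → H ⊆ K3 n →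
  ∃ σ : Equiv.Perm (Fin n), D.card * H.card ≤ n.choose 3 * (D ∩ img σ H).card

/-- OV2: overlay of `k` hypergraphs. -/
def S_OV2 : Prop := ∀ (n k : ℕ) (H : Fin k → ES n) (e : ℕ), 1 ≤ k →
  (∀ i, ∀ s ∈ H i, s.card = 3) → (∀ i, (H i).card = e) →
  ∃ D : Fin k → ES n, IsCommon H D ∧ ∀ i, e ^ k ≤ (n.choose 3) ^ (k - 1) * (D i).card

/-- TRI: tripartition. -/
def S_TRI : Prop := ∀ (n : ℕ) (H : ES n), (∀ s ∈ H, s.card = 3) →
  ∃ (f : Fin n → Fin 3) (S : Tr n), (∀ p ∈ S, ∀ a, f (p a) = a) ∧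
    (∀ p ∈ S, ({p 0, p 1, p 2} : Finset (Fin n)) ∈ H) ∧ 2 * H.card ≤ 9 * S.card

/-- RG0: dyadic class of one statistic: fibre sizes. -/
def S_RG0 : Prop := ∀ (α β : Type) (_ : DecidableEq α) (_ : DecidableEq β) (S S1 : Finset α) (g : α → β) (κ : ℕ),
  S1 ⊆ S → (∀ p ∈ S1, Nat.log 2 ((S.filter (fun q => g q = g p)).card) = κ) →
  (∀ v, (S1.filter (fun q => g q = v)).card ≤ 2 ^ (κ + 1)) ∧
    2 ^ (κ + 1) * (S1.image g).card ≤ 2 * S.card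

/-- RG1: regularisation by pigeonhole. -/
def S_RG1 : Prop := ∀ (n : ℕ) (S : Tr n), 1 ≤ n → S.Nonempty →
  ∃ (S1 : Tr n) (Δ : Fin 3 → ℕ) (Γ : Fin 3 → Fin 3 → ℕ), S1 ⊆ S ∧ S1.Nonempty ∧
    S.card ≤ Lam n * S1.card ∧
    (∀ a v, dg S1 a v ≤ Δ a) ∧ (∀ a, Δ a * nn S1 a ≤ 2 * Lam n * S1.card) ∧
    (∀ a b v v', a ≠ b → cg S1 a b v v' ≤ Γ a b) ∧
    (∀ a b, a ≠ b → Γ a b * mm S1 a b ≤ 2 * Lam n * S1.card)

/-- CS: the degree bound and Cauchy-Schwarz. -/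
def S_CS : Prop := ∀ (n : ℕ) (S : Tr n) (Δ : ℕ) (a b c : Fin 3), a ≠ b → a ≠ c → b ≠ c →
  (∀ v, dg S a v ≤ Δ) → S.card ^ 2 ≤ Δ * mm S a b * mm S a c

/-- BAS: trivial facts. -/
def S_BAS : Prop := ∀ (n : ℕ) (S : Tr n),
  (∀ a, nn S a ≤ n) ∧ (∀ a b, mm S a b = mm S b a) ∧ (∀ a b, mm S a b ≤ nn S a * nn S b) ∧
  (∀ a b c : Fin 3, a ≠ b → a ≠ c → b ≠ c → S.card ≤ mm S a b * nn S c) ∧
  (S.Nonempty → ∀ a b, 0 < nn S a ∧ 0 < mm S a b)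

/-- EM1: one centre: `S'` is what is left of `S` after deleting used vertices. -/
def S_EM1 : Prop := ∀ (n : ℕ) (S S' : Tr n) (a b c : Fin 3) (u w Γb Γc : ℕ),
  a ≠ b → a ≠ c → b ≠ c → 1 ≤ u → 1 ≤ w → S.Nonempty → S' ⊆ S → 5 * S.card ≤ 8 * S'.card →
  (∀ v v', cg S a b v v' ≤ Γb) → (∀ v v', cg S a c v v' ≤ Γc) →
  16 * u * Γb * nn S a ≤ S.card → 16 * (u * w) * Γc * nn S a ≤ S.card →
  2 * (w - 1) * mm S a b < S.card →
  ∃ (x : Fin n) (B : Fin u → Fin n) (C : Fin u × Fin w → Fin n),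
    Function.Injective B ∧ Function.Injective C ∧
    ∀ j l, ∃ p ∈ S', p a = x ∧ p b = B j ∧ p c = C (j, l)

/-- EM2: embedding `T(t,u,w)`. -/
def S_EM2 : Prop := ∀ (n : ℕ) (S : Tr n) (a b c : Fin 3) (t u w Δa Δb Δc Γb Γc : ℕ),
  a ≠ b → a ≠ c → b ≠ c → 1 ≤ t → 1 ≤ u → 1 ≤ w → S.Nonempty →
  (∀ v, dg S a v ≤ Δa) → (∀ v, dg S b v ≤ Δb) → (∀ v, dg S c v ≤ Δc) →
  8 * (t - 1) * Δa ≤ S.card → 8 * (t * u) * Δb ≤ S.card → 8 * (t * u * w) * Δc ≤ S.card →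
  (∀ v v', cg S a b v v' ≤ Γb) → (∀ v v', cg S a c v v' ≤ Γc) →
  16 * u * Γb * nn S a ≤ S.card → 16 * (u * w) * Γc * nn S a ≤ S.card →
  2 * (w - 1) * mm S a b < S.card →
  ∃ (A : Fin t → Fin n) (B : Fin t × Fin u → Fin n) (C : Fin t × Fin u × Fin w → Fin n),
    Function.Injective A ∧ Function.Injective B ∧ Function.Injective C ∧
    ∀ i j l, ∃ p ∈ S, p a = A i ∧ p b = B (i, j) ∧ p c = C (i, j, l)

/-- LP: choice of the roles (pure arithmetic). -/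
def S_LP : Prop := ∀ (ν : Fin 3 → ℕ) (m : Fin 3 → Fin 3 → ℕ) (E L N t u : ℕ),
  1 ≤ L → 1 ≤ t → 1 ≤ u → 1 ≤ E → (∀ a, 1 ≤ ν a ∧ ν a ≤ N) → (∀ a b, m a b = m b a) →
  (∀ a b, a ≠ b → 1 ≤ m a b ∧ m a b ≤ ν a * ν b) →
  (∀ a b c : Fin 3, a ≠ b → a ≠ c → b ≠ c → E ≤ m a b * ν c) →
  (∀ a b c : Fin 3, a ≠ b → a ≠ c → b ≠ c → E * ν a ≤ 2 * L * m a b * m a c) →
  16 * L * (t - 1) * N ^ 2 ≤ E → 2048 * L ^ 3 * (t * u) ^ 2 * N ≤ E →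
  8192 * L ^ 3 * (t * u * t) ^ 3 ≤ E →
  ∃ a b c : Fin 3, a ≠ b ∧ a ≠ c ∧ b ≠ c ∧
    16 * L * (t - 1) ≤ ν a ∧ 16 * L * (t * u) ≤ ν b ∧ 16 * L * (t * u * t) ≤ ν c ∧
    32 * L * u * ν a ≤ m a b ∧ 32 * L * (u * t) * ν a ≤ m a c ∧ 2 * (t - 1) * m a b < E

/-- UN: the unavoidable hypergraph `T(t,u,t)`. -/
def S_UN : Prop := ∀ (n : ℕ) (H : ES n) (t u : ℕ), 1 ≤ n → 1 ≤ t → 1 ≤ u →
  (∀ s ∈ H, s.card = 3) → 1 ≤ H.card →
  72 * Lam n ^ 2 * (t - 1) * n ^ 2 ≤ H.card →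
  9216 * Lam n ^ 4 * (t * u) ^ 2 * n ≤ H.card →
  36864 * Lam n ^ 4 * (t * u * t) ^ 3 ≤ H.card → ContainsT H t u t

/-- COM: if every member of the family contains `T(t,u,w)`, there is a common subgraph with `tuw` edges. -/
def S_COM : Prop := ∀ (n k : ℕ) (H : Fin k → ES n) (t u w : ℕ), 1 ≤ t → 1 ≤ u → 1 ≤ w →
  (∀ i, ContainsT (H i) t u w) →
  ∃ D : Fin k → ES n, IsCommon H D ∧ ∀ i, (D i).card = t * u * w

/-- ONE: a nonempty 3-graph contains `T(1,1,1)`. -/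
def S_ONE : Prop := ∀ (n : ℕ) (H : ES n), (∀ s ∈ H, s.card = 3) → H.Nonempty → ContainsT H 1 1 1

/-- PAR: choice of the parameters (real arithmetic); `L = Lam n`, `β = 2 - 4/(3k-1)`. -/
def S_PAR : Prop := ∀ (n e L : ℕ) (β : ℝ), 2 ≤ n → 1 ≤ e → 1 ≤ L → 3 / 2 ≤ β → β ≤ 2 → e ≤ n ^ 3 →
  (e : ℝ) ≤ (n : ℝ) ^ (3 * β / 2) →
  ((e : ℝ) ≤ 36864 * (L : ℝ) ^ 4 * (n : ℝ) ^ β) ∨
  ∃ t u : ℕ, 1 ≤ t ∧ 1 ≤ u ∧ 72 * L ^ 2 * (t - 1) * n ^ 2 ≤ e ∧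
    9216 * L ^ 4 * (t * u) ^ 2 * n ≤ e ∧ 36864 * L ^ 4 * (t * u * t) ^ 3 ≤ e ∧
    (e : ℝ) ≤ 36864 * (L : ℝ) ^ 4 * (n : ℝ) ^ β * ((t * u * t : ℕ) : ℝ)

/-- OVA: arithmetic of the overlay case. -/
def S_OVA : Prop := ∀ (n k e d : ℕ), 2 ≤ n → 3 ≤ k → 1 ≤ e →
  (n : ℝ) ^ (3 * (2 - 4 / (3 * (k : ℝ) - 1)) / 2) ≤ (e : ℝ) →
  e ^ k ≤ (n.choose 3) ^ (k - 1) * d →
  (e : ℝ) ≤ (n : ℝ) ^ (2 - 4 / (3 * (k : ℝ) - 1)) * (d : ℝ)

/-- LOG: the final arithmetic of the upper bound. -/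
def S_LOG : Prop := ∀ (n : ℕ) (β : ℝ), 2 ≤ n → 0 ≤ β →
  36864 * (Lam n : ℝ) ^ 4 * (n : ℝ) ^ β * (1 + 3 * Real.log n) ≤
    36864 * 5 ^ 25 * (n : ℝ) ^ β * (Real.log n) ^ 25

/-- UP: the upper bound, with the nonemptiness of the set in the definition of `U`. -/
def S_UP : Prop := ∀ (k n : ℕ), 3 ≤ k → 2 ≤ n →
  (∃ t, Suff k n 3 t) ∧
  (U k n 3 : ℝ) ≤ 36864 * 5 ^ 25 * (n : ℝ) ^ (2 - 4 / (3 * (k : ℝ) - 1)) * (Real.log n) ^ 25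

/-- the complete 3-graph on the first `v` vertices -/
def Kv (n v : ℕ) : ES n := powersetCard 3 (univ.filter (fun x : Fin n => (x : ℕ) < v))

/-- CN1: number of `e`-edge hypergraphs containing a copy of `D`. -/
def S_CN1 : Prop := ∀ (n v q e : ℕ) (D : ES n), v ≤ n → D ⊆ Kv n v → D.card = q →
  ((powersetCard e (K3 n)).filter (fun H => ∃ σ : Equiv.Perm (Fin n), img σ D ⊆ H)).card
    ≤ n ^ v * (n.choose 3 - q).choose (e - q)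

/-- CN2: existence of `k` hypergraphs without a large common subgraph inside `Kv`. -/
def S_CN2 : Prop := ∀ (n v q e k : ℕ), v ≤ n → e = v.choose 3 → q ≤ e →
  e.choose q * (n ^ v * (n.choose 3 - q).choose (e - q)) ^ k < ((n.choose 3).choose e) ^ k →
  ∃ H : Fin k → ES n, (∀ i, ∀ s ∈ H i, s.card = 3) ∧ (∀ i, (H i).card = e) ∧
    ¬ ∃ D : ES n, D ⊆ Kv n v ∧ D.card = q ∧ ∀ i, ∃ σ : Equiv.Perm (Fin n), img σ D ⊆ H i

/-- CN3: the arithmetic inequality behind CN2 (`k` = number of random hypergraphs). -/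
def S_CN3 : Prop := ∀ (n v K q e k : ℕ), 1 ≤ k → 1 ≤ v → v ≤ n → e = v.choose 3 → q = K * v → 1 ≤ q → q ≤ e →
  v ^ (3 * k + 2) ≤ n ^ (3 * k) → n ^ k < 2 ^ K →
  e.choose q * (n ^ v * (n.choose 3 - q).choose (e - q)) ^ k < ((n.choose 3).choose e) ^ k

/-- LOA: a family without large common subgraphs needs many parts. -/
def S_LOA : Prop := ∀ (n v q e k : ℕ) (H : Fin k → ES n), v ≤ n → e = v.choose 3 → 1 ≤ q →
  (∀ i, ∀ s ∈ H i, s.card = 3) → (∀ i, (H i).card = e) →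
  (¬ ∃ D : ES n, D ⊆ Kv n v ∧ D.card = q ∧ ∀ i, ∃ σ : Equiv.Perm (Fin n), img σ D ⊆ H i) →
  ∀ t, Suff (k + 1) n 3 t → e ≤ t * q

/-- LOB: the arithmetic of the lower bound (`k + 1` hypergraphs). -/
def S_LOB : Prop := ∀ (k : ℕ), 1 ≤ k → ∃ c : ℝ, 0 < c ∧ ∀ n : ℕ, 3 ≤ n → ∀ T : ℕ, 1 ≤ T →
  (∀ v K q : ℕ, 1 ≤ v → v ≤ n → q = K * v → 1 ≤ q → v ^ (3 * k + 2) ≤ n ^ (3 * k) → n ^ k < 2 ^ K →
    v.choose 3 ≤ T * q) →
  c * (n : ℝ) ^ (2 - 4 / (3 * ((k : ℝ) + 1) - 1)) / Real.log n ≤ T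

/-- LO: the lower bound. -/
def S_LO : Prop := ∀ (k : ℕ), 2 ≤ k → ∃ c : ℝ, 0 < c ∧ ∀ n : ℕ, 3 ≤ n →
  (∃ t, Suff k n 3 t) → c * (n : ℝ) ^ (2 - 4 / (3 * (k : ℝ) - 1)) / Real.log n ≤ (U k n 3 : ℝ)

/-- RES: the final theorem. -/
def S_RES : Prop :=
  (∃ C : ℝ, ∀ k n : ℕ, 3 ≤ k → 2 ≤ n →
    (U k n 3 : ℝ) ≤ C * (n : ℝ) ^ (2 - 4 / (3 * (k : ℝ) - 1)) * (Real.log n) ^ 25) ∧
  (∀ k : ℕ, 3 ≤ k → ∃ c : ℝ, 0 < c ∧ ∀ n : ℕ, 3 ≤ n →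
    c * (n : ℝ) ^ (2 - 4 / (3 * (k : ℝ) - 1)) / Real.log n ≤ (U k n 3 : ℝ))

end H773U
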