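import Pool.Agent.H773R2.UD.Defs

/-! Task BAS (helper418): trivial facts. -/

namespace H773U

open Finset

theorem BAS_le (n : ℕ) (S : Tr n) (a b c : Fin 3) (hab : a ≠ b) (hac : a ≠ c) (hbc : b ≠ c) :
    S.card ≤ mm S a b * nn S c := by
  unfold mm nn
  rw [← card_product]
  refine card_le_card_of_injOn (fun p => ((p a, p b), p c)) ?_ ?_
  · intro p hp
    simp only [coe_product, coe_image, Set.mem_prod, Set.mem_image, mem_coe]
    exact ⟨⟨p, hp, rfl⟩, ⟨p, hp, rfl⟩⟩
  · intro p _ q _ h
    simp only [Prod.mk.injEq] at h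
    obtain ⟨⟨h1, h2⟩, h3⟩ := h
    funext i
    have h4 : i = a ∨ i = b ∨ i = c := by omega
    rcases h4 with rfl | rfl | rfl
    · exact h1
    · exact h2
    · exact h3

theorem BAS : S_BAS := by
  intro n S
  refine ⟨fun a => ?_, fun a b => ?_, fun a b => ?_, BAS_le n S, fun hS a b => ⟨?_, ?_⟩⟩
  · exact (card_le_univ _).trans_eq (Fintype.card_fin n)
  · unfold mm
    have h : S.image (fun p => (p b, p a)) = (S.image (fun p => (p a, p b))).image Prod.swap := by
      rw [image_image]
      rfl
    rw [h, card_image_of_injective _ Prod.swap_injective]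
  · unfold mm nn
    rw [← card_product]
    refine card_le_card fun x hx => ?_
    rw [mem_image] at hx
    obtain ⟨p, hp, rfl⟩ := hx
    rw [mem_product]
    exact ⟨mem_image_of_mem _ hp, mem_image_of_mem _ hp⟩
  · exact card_pos.2 (hS.image _)
  · exact card_pos.2 (hS.image _)

end H773U
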