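import Pool.Agent.H773R2.UD.Defs

namespace H773U

open Finset

/-- number of `e`-subsets of `K` containing a given `q`-subset -/
theorem CN1_fibre {α : Type*} [DecidableEq α] (K A : Finset α) (q e : ℕ) (hA : A.card = q)
    (hAK : A ⊆ K) :
    ((powersetCard e K).filter (fun H => A ⊆ H)).card ≤ (K.card - q).choose (e - q) := by
  have h1 : (powersetCard (e - q) (K \ A)).card = (K.card - q).choose (e - q) := by
    rw [card_powersetCard, card_sdiff_of_subset hAK, hA]
  rw [← h1]
  refine card_le_card_of_injOn (fun H => H \ A) ?_ ?_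
  · intro H hH
    rw [mem_coe, mem_filter, mem_powersetCard] at hH
    rw [mem_coe, mem_powersetCard]
    refine ⟨sdiff_subset_sdiff hH.1.1 (le_refl A), ?_⟩
    rw [card_sdiff_of_subset hH.2, hA, hH.1.2]
  · intro H hH H' hH' heq
    rw [mem_coe, mem_filter, mem_powersetCard] at hH hH'
    have h2 : H \ A ∪ A = H' \ A ∪ A := by
      have : H \ A = H' \ A := heq
      rw [this]
    rwa [sdiff_union_of_subset hH.2, sdiff_union_of_subset hH'.2] at h2

theorem CN1 : S_CN1 := by
  intro n v q e D hv hD hq
  classical
  set ext : (Fin v → Fin n) → Fin n → Fin n := fun g x => if h : (x : ℕ) < v then g ⟨x, h⟩ else x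
    with hext
  set Dg : (Fin v → Fin n) → ES n := fun g => D.image (fun s => s.image (ext g)) with hDg
  set Fb : (Fin v → Fin n) → Finset (ES n) := fun g =>
    (powersetCard e (K3 n)).filter (fun H => Dg g ⊆ H ∧ (Dg g).card = q ∧ Dg g ⊆ K3 n) with hFb
  have hsub : ((powersetCard e (K3 n)).filter
      (fun H => ∃ σ : Equiv.Perm (Fin n), img σ D ⊆ H)) ⊆ (univ : Finset (Fin v → Fin n)).biUnion Fb := by
    intro H hH
    rw [mem_filter] at hH
    obtain ⟨hH1, σ, hσ⟩ := hH
    rw [mem_biUnion]
    refine ⟨fun i => σ (Fin.castLE hv i), mem_univ _, ?_⟩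
    have himg : Dg (fun i => σ (Fin.castLE hv i)) = img σ D := by
      simp only [hDg, img]
      apply Finset.image_congr
      intro s hs
      have hs' : s ∈ Kv n v := hD hs
      rw [Kv, mem_powersetCard] at hs'
      apply Finset.image_congr
      intro x hx
      have hx' := hs'.1 hx
      rw [mem_filter] at hx'
      simp only [hext]
      rw [dif_pos hx'.2]
      rfl
    rw [hFb]
    simp only [mem_filter]
    rw [himg]
    refine ⟨hH1, hσ, ?_, ?_⟩
    · rw [img, card_image_of_injective, hq]
      exact Finset.image_injective σ.injective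
    · exact hσ.trans (mem_powersetCard.mp hH1).1
  have hfib : ∀ g, (Fb g).card ≤ (n.choose 3 - q).choose (e - q) := by
    intro g
    by_cases hg : (Dg g).card = q ∧ Dg g ⊆ K3 n
    · have hK : (K3 n).card = n.choose 3 := by
        rw [K3, card_powersetCard, card_univ, Fintype.card_fin]
      rw [← hK]
      refine le_trans (card_le_card ?_) (CN1_fibre (K3 n) (Dg g) q e hg.1 hg.2)
      intro H hH
      rw [hFb] at hH
      simp only [mem_filter] at hH
      rw [mem_filter]
      exact ⟨hH.1, hH.2.1⟩
    · have : Fb g = ∅ := by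
        rw [hFb]
        apply filter_eq_empty_iff.mpr
        intro H _ h
        exact hg h.2
      rw [this]
      simp
  calc ((powersetCard e (K3 n)).filter
      (fun H => ∃ σ : Equiv.Perm (Fin n), img σ D ⊆ H)).card
      ≤ ((univ : Finset (Fin v → Fin n)).biUnion Fb).card := card_le_card hsub
    _ ≤ ∑ g : Fin v → Fin n, (Fb g).card := card_biUnion_le
    _ ≤ ∑ _g : Fin v → Fin n, (n.choose 3 - q).choose (e - q) := sum_le_sum (fun g _ => hfib g)
    _ = n ^ v * (n.choose 3 - q).choose (e - q) := by
        rw [sum_const, card_univ]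
        simp

end H773U
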