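import Pool.Agent.H773R2.UD.Defs

/-! Task CN2 (helper25): existence of `k` hypergraphs without a large common subgraph inside
`Kv n v`, by counting. -/

namespace H773U

open Finset

theorem CN2_card_Kv (n v : ℕ) (hv : v ≤ n) : (Kv n v).card = v.choose 3 := by
  rw [Kv, card_powersetCard]
  congr 1
  rw [Fin.card_filter_val_lt, min_eq_right hv]

theorem CN2 (h : S_CN1) : S_CN2 := by
  classical
  intro n v q e k hv he hq hlt
  by_contra hcon
  push Not at hcon
  set T := Fintype.piFinset (fun _ : Fin k => powersetCard e (K3 n)) with hT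
  set F : ES n → Finset (ES n) := fun D =>
    (powersetCard e (K3 n)).filter (fun H => ∃ σ : Equiv.Perm (Fin n), img σ D ⊆ H) with hF
  have hTc : T.card = ((n.choose 3).choose e) ^ k := by
    rw [hT, Fintype.card_piFinset]
    simp [K3]
  have hcov : T ⊆ (powersetCard q (Kv n v)).biUnion
      (fun D => Fintype.piFinset (fun _ : Fin k => F D)) := by
    intro H hH
    rw [hT, Fintype.mem_piFinset] at hH
    have h1 : ∀ i, H i ⊆ K3 n ∧ (H i).card = e := fun i => mem_powersetCard.1 (hH i)
    obtain ⟨D, hD1, hD2, hD3⟩ := hcon H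
      (fun i s hs => (mem_powersetCard.1 ((h1 i).1 hs)).2) (fun i => (h1 i).2)
    refine mem_biUnion.2 ⟨D, mem_powersetCard.2 ⟨hD1, hD2⟩, ?_⟩
    rw [Fintype.mem_piFinset]
    intro i
    exact mem_filter.2 ⟨hH i, hD3 i⟩
  have h2 : T.card ≤ e.choose q * (n ^ v * (n.choose 3 - q).choose (e - q)) ^ k := by
    refine (card_le_card hcov).trans (card_biUnion_le.trans ?_)
    have h3 : ∀ D ∈ powersetCard q (Kv n v),
        (Fintype.piFinset (fun _ : Fin k => F D)).card ≤
          (n ^ v * (n.choose 3 - q).choose (e - q)) ^ k := by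
      intro D hD
      obtain ⟨hD1, hD2⟩ := mem_powersetCard.1 hD
      rw [Fintype.card_piFinset, prod_const, card_univ, Fintype.card_fin]
      exact Nat.pow_le_pow_left (h n v q e D hv hD1 hD2) k
    refine (sum_le_card_nsmul _ _ _ h3).trans ?_
    rw [card_powersetCard, CN2_card_Kv n v hv, ← he, smul_eq_mul]
  rw [hTc] at h2
  omega

end H773U
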