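import Pool.Agent.H773R2.UD.Defs

/-! CN3: the arithmetic inequality behind the counting step. -/

namespace H773U

theorem CN3_desc (e N : ℕ) (h : e ≤ N) (q : ℕ) :
    e.descFactorial q * N ^ q ≤ N.descFactorial q * e ^ q := by
  induction q with
  | zero => simp
  | succ q ih =>
    rw [Nat.descFactorial_succ, Nat.descFactorial_succ, pow_succ, pow_succ]
    have h1 : (e - q) * N ≤ (N - q) * e := by
      rw [Nat.sub_mul, Nat.sub_mul, Nat.mul_comm N e]
      exact Nat.sub_le_sub_left (Nat.mul_le_mul_left q h) _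
    calc (e - q) * e.descFactorial q * (N ^ q * N)
        = (e.descFactorial q * N ^ q) * ((e - q) * N) := by ring
      _ ≤ (N.descFactorial q * e ^ q) * ((N - q) * e) := Nat.mul_le_mul ih h1
      _ = (N - q) * N.descFactorial q * (e ^ q * e) := by ring

theorem CN3_choose (e N : ℕ) (h : e ≤ N) (q : ℕ) :
    e.choose q * N ^ q ≤ N.choose q * e ^ q := by
  have h1 := CN3_desc e N h q
  rw [Nat.descFactorial_eq_factorial_mul_choose, Nat.descFactorial_eq_factorial_mul_choose,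
    Nat.mul_assoc, Nat.mul_assoc] at h1
  exact Nat.le_of_mul_le_mul_left h1 (Nat.factorial_pos q)

theorem CN3_fact (q : ℕ) : q ^ q ≤ 3 ^ q * q.factorial := by
  have h1 : (q : ℝ) ^ q / (q.factorial : ℝ) ≤ Real.exp q :=
    Real.pow_div_factorial_le_exp q (Nat.cast_nonneg q) q
  have h2 : Real.exp (q : ℝ) ≤ 3 ^ q := by
    rw [← Real.exp_one_pow]
    exact pow_le_pow_left₀ (Real.exp_pos _).le (le_of_lt (lt_trans Real.exp_one_lt_d9 (by norm_num))) q
  have h3 : (0 : ℝ) < (q.factorial : ℝ) := by exact_mod_cast Nat.factorial_pos q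
  have h4 : (q : ℝ) ^ q ≤ 3 ^ q * (q.factorial : ℝ) := by
    rw [div_le_iff₀ h3] at h1
    exact h1.trans (mul_le_mul_of_nonneg_right h2 h3.le)
  exact_mod_cast h4

theorem CN3_cub (v : ℕ) : 6 * v.choose 3 ≤ v ^ 3 := by
  have h1 := Nat.descFactorial_eq_factorial_mul_choose v 3
  have h2 : v.descFactorial 3 ≤ v ^ 3 := Nat.descFactorial_le_pow v 3
  have h3 : (3 : ℕ).factorial = 6 := rfl
  rw [h3] at h1
  omega

theorem CN3_two (v K q e : ℕ) (hv : 1 ≤ v) (he : e = v.choose 3) (hq : q = K * v) :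
    e.choose q * (2 * K) ^ q ≤ v ^ (2 * q) := by
  have h1 : q.factorial * e.choose q ≤ e ^ q := by
    rw [← Nat.descFactorial_eq_factorial_mul_choose]
    exact Nat.descFactorial_le_pow e q
  have h2 := CN3_fact q
  have h3 : e.choose q * q ^ q ≤ (3 * e) ^ q := by
    calc e.choose q * q ^ q ≤ e.choose q * (3 ^ q * q.factorial) := Nat.mul_le_mul_left _ h2
      _ = 3 ^ q * (q.factorial * e.choose q) := by ring
      _ ≤ 3 ^ q * e ^ q := Nat.mul_le_mul_left _ h1
      _ = (3 * e) ^ q := (mul_pow 3 e q).symm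
  have h4 : e.choose q * (2 * q) ^ q ≤ (v ^ 3) ^ q := by
    calc e.choose q * (2 * q) ^ q = 2 ^ q * (e.choose q * q ^ q) := by rw [mul_pow]; ring
      _ ≤ 2 ^ q * (3 * e) ^ q := Nat.mul_le_mul_left _ h3
      _ = (6 * e) ^ q := by rw [← mul_pow]; congr 1; ring
      _ ≤ (v ^ 3) ^ q := Nat.pow_le_pow_left (by rw [he]; exact CN3_cub v) q
  have h5 : v ^ q * (e.choose q * (2 * K) ^ q) ≤ v ^ q * v ^ (2 * q) := by
    calc v ^ q * (e.choose q * (2 * K) ^ q) = e.choose q * (2 * (K * v)) ^ q := by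
          rw [mul_pow, mul_pow, mul_pow]; ring
      _ = e.choose q * (2 * q) ^ q := by rw [← hq]
      _ ≤ (v ^ 3) ^ q := h4
      _ = v ^ q * v ^ (2 * q) := by rw [← pow_mul, ← pow_add]; congr 1; ring
  exact Nat.le_of_mul_le_mul_left h5 (Nat.pow_pos hv)

theorem CN3_main (n v K q e k N : ℕ) (hN : N = n.choose 3) (hv : 1 ≤ v) (hvn : v ≤ n)
    (he : e = v.choose 3) (hq : q = K * v) (hq1 : 1 ≤ q) (hqe : q ≤ e) (heN : e ≤ N)
    (hvk : v ^ (3 * k + 2) ≤ n ^ (3 * k)) (hnk : n ^ k < 2 ^ K) :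
    (e.choose q) ^ (k + 1) * n ^ (v * k) < (N.choose q) ^ k := by
  have hNpos : 0 < N := by omega
  have hn : 0 < n := by omega
  have hcpos : 0 < e.choose q := Nat.choose_pos hqe
  have h2 : e.choose q * N ^ q ≤ N.choose q * e ^ q := CN3_choose e N heN q
  have h3 : e * n ^ 3 ≤ N * v ^ 3 := by
    rw [he, hN]; exact CN3_choose v n hvn 3
  have h4 : e.choose q * (n ^ 3) ^ q ≤ N.choose q * (v ^ 3) ^ q := by
    have h5 : N ^ q * (e.choose q * (n ^ 3) ^ q) ≤ N ^ q * (N.choose q * (v ^ 3) ^ q) := by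
      calc N ^ q * (e.choose q * (n ^ 3) ^ q) = (e.choose q * N ^ q) * (n ^ 3) ^ q := by ring
        _ ≤ (N.choose q * e ^ q) * (n ^ 3) ^ q := Nat.mul_le_mul_right _ h2
        _ = N.choose q * (e * n ^ 3) ^ q := by rw [mul_pow]; ring
        _ ≤ N.choose q * (N * v ^ 3) ^ q :=
          Nat.mul_le_mul_left _ (Nat.pow_le_pow_left h3 q)
        _ = N ^ q * (N.choose q * (v ^ 3) ^ q) := by rw [mul_pow]; ring
    exact Nat.le_of_mul_le_mul_left h5 (Nat.pow_pos hNpos)
  have h6 : (e.choose q) ^ k * (n ^ (3 * k)) ^ q ≤ (N.choose q) ^ k * (v ^ (3 * k)) ^ q := by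
    have := Nat.pow_le_pow_left h4 k
    rw [mul_pow, mul_pow] at this
    calc (e.choose q) ^ k * (n ^ (3 * k)) ^ q = (e.choose q) ^ k * ((n ^ 3) ^ q) ^ k := by
          congr 1; rw [← pow_mul, ← pow_mul, ← pow_mul]; congr 1; ring
      _ ≤ (N.choose q) ^ k * ((v ^ 3) ^ q) ^ k := this
      _ = (N.choose q) ^ k * (v ^ (3 * k)) ^ q := by
          congr 1; rw [← pow_mul, ← pow_mul, ← pow_mul]; congr 1; ring
  have h7 : (e.choose q) ^ (k + 1) * (2 * K) ^ q ≤ (N.choose q) ^ k := by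
    have h8 : (n ^ (3 * k)) ^ q * ((e.choose q) ^ (k + 1) * (2 * K) ^ q) ≤
        (n ^ (3 * k)) ^ q * (N.choose q) ^ k := by
      calc (n ^ (3 * k)) ^ q * ((e.choose q) ^ (k + 1) * (2 * K) ^ q)
          = ((e.choose q) ^ k * (n ^ (3 * k)) ^ q) * (e.choose q * (2 * K) ^ q) := by ring
        _ ≤ ((N.choose q) ^ k * (v ^ (3 * k)) ^ q) * v ^ (2 * q) :=
          Nat.mul_le_mul h6 (CN3_two v K q e hv he hq)
        _ = (N.choose q) ^ k * (v ^ (3 * k + 2)) ^ q := by
          rw [mul_assoc, ← pow_mul, ← pow_add, ← pow_mul]; congr 2; ring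
        _ ≤ (N.choose q) ^ k * (n ^ (3 * k)) ^ q :=
          Nat.mul_le_mul_left _ (Nat.pow_le_pow_left hvk q)
        _ = (n ^ (3 * k)) ^ q * (N.choose q) ^ k := by ring
    exact Nat.le_of_mul_le_mul_left h8 (Nat.pow_pos (Nat.pow_pos hn))
  have hK : 1 ≤ K := by
    rcases Nat.eq_zero_or_pos K with h | h
    · subst h; simp at hq; omega
    · exact h
  have h9 : n ^ (v * k) < (2 * K) ^ q := by
    calc n ^ (v * k) = (n ^ k) ^ v := by rw [← pow_mul]; congr 1; ring
      _ < (2 ^ K) ^ v := Nat.pow_lt_pow_left hnk (by omega)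
      _ = 2 ^ q := by rw [← pow_mul, hq]
      _ ≤ (2 * K) ^ q := Nat.pow_le_pow_left (by omega) q
  calc (e.choose q) ^ (k + 1) * n ^ (v * k) < (e.choose q) ^ (k + 1) * (2 * K) ^ q :=
        Nat.mul_lt_mul_of_pos_left h9 (Nat.pow_pos hcpos)
    _ ≤ (N.choose q) ^ k := h7

theorem CN3 : S_CN3 := by
  intro n v K q e k hk hv hvn he hq hq1 hqe hvk hnk
  have heN : e ≤ n.choose 3 := by rw [he]; exact Nat.choose_le_choose 3 hvn
  have hmain := CN3_main n v K q e k (n.choose 3) rfl hv hvn he hq hq1 hqe heN hvk hnk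
  generalize hN : n.choose 3 = N at *
  have hid : N.choose e * e.choose q = N.choose q * (N - q).choose (e - q) :=
    Nat.choose_mul hqe
  have hNq : 0 < N.choose q := Nat.choose_pos (hqe.trans heN)
  have hNe : 0 < N.choose e := Nat.choose_pos heN
  have h1 : (N.choose q) ^ k * (e.choose q * (n ^ v * (N - q).choose (e - q)) ^ k) <
      (N.choose q) ^ k * (N.choose e) ^ k := by
    calc (N.choose q) ^ k * (e.choose q * (n ^ v * (N - q).choose (e - q)) ^ k)
        = e.choose q * (n ^ v) ^ k * (N.choose q * (N - q).choose (e - q)) ^ k := by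
          rw [mul_pow, mul_pow]; ring
      _ = e.choose q * (n ^ v) ^ k * (N.choose e * e.choose q) ^ k := by rw [hid]
      _ = (N.choose e) ^ k * ((e.choose q) ^ (k + 1) * n ^ (v * k)) := by
          rw [mul_pow, ← pow_mul]; ring
      _ < (N.choose e) ^ k * (N.choose q) ^ k :=
          Nat.mul_lt_mul_of_pos_left hmain (Nat.pow_pos hNe)
      _ = (N.choose q) ^ k * (N.choose e) ^ k := by ring
  exact Nat.lt_of_mul_lt_mul_left h1

end H773U
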