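import Pool.Agent.H773R2.UD.Defs

/-! Task COM (helper8): a common subgraph from the tree-like hypergraph. -/

set_option autoImplicit false

namespace H773U

open Finset

lemma COM_perm {n : ℕ} {X : Type} (f g : X → Fin n) (hf : Function.Injective f)
    (hg : Function.Injective g) : ∃ σ : Equiv.Perm (Fin n), ∀ x, σ (f x) = g x := by
  classical
  let e : {v // v ∈ Set.range f} ≃ {v // v ∈ Set.range g} :=
    (Equiv.ofInjective f hf).symm.trans (Equiv.ofInjective g hg)
  refine ⟨e.extendSubtype, fun x => ?_⟩
  rw [Equiv.extendSubtype_apply_of_mem e (f x) ⟨x, rfl⟩]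
  have h1 : e (Equiv.ofInjective f hf x) = Equiv.ofInjective g hg x := by
    change (Equiv.ofInjective g hg) ((Equiv.ofInjective f hf).symm (Equiv.ofInjective f hf x)) = _
    rw [Equiv.symm_apply_apply]
  exact congrArg Subtype.val h1

/-- the edge with index `x` -/
def COM_edge {n t u w : ℕ} (φ : (Fin t ⊕ (Fin t × Fin u)) ⊕ (Fin t × Fin u × Fin w) → Fin n)
    (x : Fin t × Fin u × Fin w) : Finset (Fin n) :=
  {φ (.inl (.inl x.1)), φ (.inl (.inr (x.1, x.2.1))), φ (.inr x)}

lemma COM_inj {n t u w : ℕ} (φ : (Fin t ⊕ (Fin t × Fin u)) ⊕ (Fin t × Fin u × Fin w) → Fin n)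
    (hφ : Function.Injective φ) : Function.Injective (COM_edge φ) := by
  intro x y h
  have h1 : φ (.inr x) ∈ COM_edge φ y := by
    rw [← h]
    simp [COM_edge]
  simp only [COM_edge, mem_insert, mem_singleton] at h1
  rcases h1 with h1 | h1 | h1
  · exact absurd (hφ h1) (by simp)
  · exact absurd (hφ h1) (by simp)
  · exact Sum.inr_injective (hφ h1)

theorem COM (hI : S_ISO1) : S_COM := by
  intro n k H t u w _ _ _ hH
  choose φ hφ hmem using hH
  refine ⟨fun i => univ.image (COM_edge (φ i)), ⟨?_, ?_, ?_⟩, ?_⟩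
  · intro i s hs
    obtain ⟨x, _, rfl⟩ := mem_image.1 hs
    exact hmem i x.1 x.2.1 x.2.2
  · intro i i'
    obtain ⟨σ, hσ⟩ := COM_perm (φ i) (φ i') (hφ i) (hφ i')
    have : univ.image (COM_edge (φ i')) = img σ (univ.image (COM_edge (φ i))) := by
      unfold img
      rw [image_image]
      refine image_congr (fun x _ => ?_)
      simp only [Function.comp, COM_edge, image_insert, image_singleton, hσ]
    change Iso (univ.image (COM_edge (φ i))) (univ.image (COM_edge (φ i')))
    rw [this]
    exact hI n σ _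
  · intro i i'
    rw [card_image_of_injective _ (COM_inj _ (hφ i)), card_image_of_injective _ (COM_inj _ (hφ i'))]
  · intro i
    rw [card_image_of_injective _ (COM_inj _ (hφ i)), card_univ]
    simp only [Fintype.card_prod, Fintype.card_fin]
    ring

end H773U
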