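import Pool.Agent.H773R2.UD.Defs

/-! Task CS: the degree bound and Cauchy-Schwarz. -/

namespace H773U

open Finset

theorem CS_fin3 (a b c : Fin 3) (hab : a ≠ b) (hac : a ≠ c) (hbc : b ≠ c) (i : Fin 3) :
    i = a ∨ i = b ∨ i = c := by
  revert a b c i
  decide

theorem CS_mm {n : ℕ} (S : Tr n) (a b : Fin 3) :
    mm S a b = ∑ x : Fin n, ((S.filter (fun p => p a = x)).image (fun p => p b)).card := by
  classical
  have h1 : S.image (fun p => (p a, p b)) =
      (univ : Finset (Fin n)).biUnion (fun x =>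
        ((S.filter (fun p => p a = x)).image (fun p => p b)).image (fun y => (x, y))) := by
    ext ⟨u, v⟩
    simp only [mem_image, mem_biUnion, mem_univ, true_and, mem_filter, Prod.mk.injEq]
    constructor
    · rintro ⟨p, hp, rfl, rfl⟩
      exact ⟨p a, p b, ⟨p, ⟨hp, rfl⟩, rfl⟩, rfl, rfl⟩
    · rintro ⟨x, y, ⟨p, ⟨hp, h1⟩, h2⟩, h3, h4⟩
      exact ⟨p, hp, by rw [h1, h3], by rw [h2, h4]⟩
  unfold mm
  rw [h1, card_biUnion]
  · refine sum_congr rfl fun x _ => ?_
    exact card_image_of_injective _ (fun y y' h => (Prod.mk.inj h).2)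
  · intro x _ y _ hxy
    rw [Function.onFun, Finset.disjoint_left]
    rintro ⟨u, v⟩ h h'
    simp only [mem_image, Prod.mk.injEq] at h h'
    obtain ⟨_, _, h2, _⟩ := h
    obtain ⟨_, _, h4, _⟩ := h'
    exact hxy (h2.trans h4.symm)

theorem CS_dg {n : ℕ} (S : Tr n) (a b c : Fin 3) (hab : a ≠ b) (hac : a ≠ c) (hbc : b ≠ c)
    (x : Fin n) : dg S a x ≤ ((S.filter (fun p => p a = x)).image (fun p => p b)).card *
      ((S.filter (fun p => p a = x)).image (fun p => p c)).card := by
  classical
  unfold dg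
  rw [← card_product]
  refine card_le_card_of_injOn (fun p => (p b, p c)) ?_ ?_
  · intro p hp
    have hp' := mem_coe.1 hp
    rw [mem_coe, mem_product]
    exact ⟨mem_image_of_mem _ hp', mem_image_of_mem _ hp'⟩
  · intro p hp q hq h
    have h1 := (mem_filter.1 (mem_coe.1 hp)).2
    have h2 := (mem_filter.1 (mem_coe.1 hq)).2
    obtain ⟨h3, h4⟩ := Prod.mk.inj h
    funext i
    rcases CS_fin3 a b c hab hac hbc i with rfl | rfl | rfl
    · rw [h1, h2]
    · exact h3
    · exact h4

theorem CS_card {n : ℕ} (S : Tr n) (a : Fin 3) : S.card = ∑ x : Fin n, dg S a x := by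
  classical
  unfold dg
  exact card_eq_sum_card_fiberwise (fun _ _ => mem_coe.2 (mem_univ _))

theorem CS : S_CS := by
  classical
  intro n S Δ a b c hab hac hbc hΔ
  have key : (∑ x : Fin n, (dg S a x : ℝ)) ^ 2 ≤
      (∑ x : Fin n, (Δ : ℝ) * (((S.filter (fun p => p a = x)).image (fun p => p b)).card : ℝ)) *
      ∑ x : Fin n, (((S.filter (fun p => p a = x)).image (fun p => p c)).card : ℝ) := by
    refine Finset.sum_sq_le_sum_mul_sum_of_sq_le_mul _ (fun x _ => by positivity)
      (fun x _ => by positivity) (fun x _ => ?_)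
    have h1 : (dg S a x : ℝ) ≤ Δ := by exact_mod_cast hΔ x
    have h2 : (dg S a x : ℝ) ≤
        (((S.filter (fun p => p a = x)).image (fun p => p b)).card : ℝ) *
        (((S.filter (fun p => p a = x)).image (fun p => p c)).card : ℝ) := by
      exact_mod_cast CS_dg S a b c hab hac hbc x
    rw [pow_two, mul_assoc]
    exact mul_le_mul h1 h2 (by positivity) (by positivity)
  rw [← Finset.mul_sum] at key
  have e0 : (∑ x : Fin n, (dg S a x : ℝ)) = (S.card : ℝ) := by
    rw [CS_card S a]; push_cast; rfl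
  have e1 : (∑ x : Fin n, (((S.filter (fun p => p a = x)).image (fun p => p b)).card : ℝ)) =
      (mm S a b : ℝ) := by
    rw [CS_mm S a b]; push_cast; rfl
  have e2 : (∑ x : Fin n, (((S.filter (fun p => p a = x)).image (fun p => p c)).card : ℝ)) =
      (mm S a c : ℝ) := by
    rw [CS_mm S a c]; push_cast; rfl
  rw [e0, e1, e2] at key
  exact_mod_cast key

end H773U
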