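import Pool.Agent.H773R2.UD.Defs

set_option autoImplicit false

namespace H773U

open Finset

theorem EM1_ext {n : ℕ} {a b c : Fin 3} (hab : a ≠ b) (hac : a ≠ c) (hbc : b ≠ c)
    {p q : Fin 3 → Fin n} (h1 : p a = q a) (h2 : p b = q b) (h3 : p c = q c) : p = q := by
  funext i
  have : i = a ∨ i = b ∨ i = c := by
    clear h1 h2 h3
    revert a b c i
    decide
  rcases this with rfl | rfl | rfl
  · exact h1
  · exact h2
  · exact h3

/-- a centre with many remaining edges -/
theorem EM1_centre {n : ℕ} {S S' : Tr n} {a b : Fin 3} {u w Γb Γc : ℕ} (hS : S.Nonempty)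
    (hS' : S' ⊆ S) (h5 : 5 * S.card ≤ 8 * S'.card)
    (h1 : 16 * u * Γb * nn S a ≤ S.card) (h2 : 16 * (u * w) * Γc * nn S a ≤ S.card)
    (h3 : 2 * (w - 1) * mm S a b < S.card) :
    ∃ x : Fin n, ((S.image (fun p => (p a, p b))).filter (fun q => q.1 = x)).card * (w - 1) +
      (u * Γb + u * w * Γc) < dg S' a x := by
  by_contra hcon
  push Not at hcon
  have e1 : ∑ x ∈ S.image (fun p => p a), dg S' a x = S'.card := by
    unfold dg
    exact (Finset.card_eq_sum_card_fiberwise (fun p hp =>
      Finset.mem_image_of_mem _ (hS' hp))).symm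
  have e2 : ∑ x ∈ S.image (fun p => p a),
      ((S.image (fun p => (p a, p b))).filter (fun q => q.1 = x)).card = mm S a b := by
    unfold mm
    refine (Finset.card_eq_sum_card_fiberwise ?_).symm
    intro q hq
    rw [Finset.mem_coe, Finset.mem_image] at hq ⊢
    obtain ⟨p, hp, rfl⟩ := hq
    exact ⟨p, hp, rfl⟩
  have e3 := Finset.sum_le_sum (fun x (_ : x ∈ S.image (fun p => p a)) => hcon x)
  rw [e1, Finset.sum_add_distrib, ← Finset.sum_mul, e2, Finset.sum_const, smul_eq_mul] at e3
  have e4 : (S.image (fun p => p a)).card = nn S a := rfl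
  rw [e4] at e3
  have hc : 0 < S.card := Finset.card_pos.mpr hS
  have e5 : 16 * (nn S a * (u * Γb + u * w * Γc)) =
      16 * u * Γb * nn S a + 16 * (u * w) * Γc * nn S a := by ring
  have e6 : 2 * (w - 1) * mm S a b = 2 * (mm S a b * (w - 1)) := by ring
  omega

theorem EM1 : S_EM1 := by
  classical
  intro n S S' a b c u w Γb Γc hab hac hbc hu hw hS hS' h5 hΓb hΓc h1 h2 h3
  obtain ⟨x, hx⟩ := EM1_centre hS hS' h5 h1 h2 h3
  set T := (S.image (fun p => (p a, p b))).filter (fun q => q.1 = x) with hT
  set Q := S'.filter (fun p => p a = x) with hQ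
  have hQc : dg S' a x = Q.card := rfl
  have key : ∀ j ≤ u, ∃ (B : ℕ → Fin n) (C : ℕ → ℕ → Fin n),
      (∀ i < j, ∀ l < w, ∃ p ∈ S', p a = x ∧ p b = B i ∧ p c = C i l) ∧
      (∀ i < j, ∀ i' < j, B i = B i' → i = i') ∧
      (∀ i < j, ∀ i' < j, ∀ l < w, ∀ l' < w, C i l = C i' l' → i = i' ∧ l = l') := by
    intro j
    induction j with
    | zero =>
      intro _
      exact ⟨fun _ => x, fun _ _ => x, fun i hi => by omega, fun i hi => by omega,
        fun i hi => by omega⟩
    | succ j ih =>
      intro hj
      obtain ⟨B, C, hBC, hB, hC⟩ := ih (by omega)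
      set UB := (range j).image B with hUB
      set UC := ((range j) ×ˢ (range w)).image (fun q => C q.1 q.2) with hUC
      have cUB : UB.card ≤ j := by
        refine Finset.card_image_le.trans ?_
        rw [card_range]
      have cUC : UC.card ≤ j * w := by
        refine Finset.card_image_le.trans ?_
        rw [card_product, card_range, card_range]
      set Q' := Q.filter (fun p => p b ∉ UB ∧ p c ∉ UC) with hQ'
      have hsub : Q ⊆ (Q' ∪ UB.biUnion (fun y => S.filter (fun p => p a = x ∧ p b = y))) ∪
          UC.biUnion (fun z => S.filter (fun p => p a = x ∧ p c = z)) := by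
        intro p hp
        have hp2 := hp
        rw [hQ, mem_filter] at hp2
        by_cases hb : p b ∈ UB
        · refine mem_union_left _ (mem_union_right _ ?_)
          rw [mem_biUnion]
          exact ⟨p b, hb, mem_filter.mpr ⟨hS' hp2.1, hp2.2, rfl⟩⟩
        · by_cases hc : p c ∈ UC
          · refine mem_union_right _ ?_
            rw [mem_biUnion]
            exact ⟨p c, hc, mem_filter.mpr ⟨hS' hp2.1, hp2.2, rfl⟩⟩
          · exact mem_union_left _ (mem_union_left _ (mem_filter.mpr ⟨hp, hb, hc⟩))
      have c1 : Q.card ≤ Q'.card + u * Γb + u * w * Γc := by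
        refine (card_le_card hsub).trans ((card_union_le _ _).trans ?_)
        have d1 : (UB.biUnion (fun y => S.filter (fun p => p a = x ∧ p b = y))).card ≤ u * Γb := by
          refine (card_biUnion_le_card_mul UB _ Γb (fun y _ => hΓb x y)).trans ?_
          exact Nat.mul_le_mul_right _ (cUB.trans (by omega))
        have d2 : (UC.biUnion (fun z => S.filter (fun p => p a = x ∧ p c = z))).card ≤
            u * w * Γc := by
          refine (card_biUnion_le_card_mul UC _ Γc (fun z _ => hΓc x z)).trans ?_
          refine Nat.mul_le_mul_right _ (cUC.trans (Nat.mul_le_mul_right _ (by omega)))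
        have d3 := card_union_le Q' (UB.biUnion (fun y => S.filter (fun p => p a = x ∧ p b = y)))
        omega
      have c2 : T.card * (w - 1) < Q'.card := by omega
      obtain ⟨q, hq, hfib⟩ := Finset.exists_lt_card_fiber_of_mul_lt_card_of_maps_to
        (s := Q') (t := T) (f := fun p => (p a, p b)) (n := w - 1) (by
          intro p hp
          rw [hQ', mem_filter, hQ, mem_filter] at hp
          rw [hT, mem_filter]
          exact ⟨mem_image_of_mem _ (hS' hp.1.1), hp.1.2⟩) c2
      obtain ⟨x', y⟩ := q
      set Fb := Q'.filter (fun p => (p a, p b) = (x', y)) with hFb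
      have hFbm : ∀ p ∈ Fb, p ∈ S' ∧ p a = x ∧ p b = y ∧ p b ∉ UB ∧ p c ∉ UC := by
        intro p hp
        rw [hFb, mem_filter, hQ', mem_filter, hQ, mem_filter, Prod.mk.injEq] at hp
        exact ⟨hp.1.1.1, hp.1.1.2, hp.2.2, hp.1.2.1, hp.1.2.2⟩
      set Z := Fb.image (fun p => p c) with hZ
      have hZc : w ≤ Z.card := by
        rw [hZ, card_image_of_injOn]
        · omega
        · intro p hp p' hp' hpp
          have e1 := hFbm p hp
          have e2 := hFbm p' hp'
          exact EM1_ext hab hac hbc (e1.2.1.trans e2.2.1.symm) (e1.2.2.1.trans e2.2.2.1.symm) hpp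
      obtain ⟨g, hg1, hg2⟩ : ∃ g : ℕ → Fin n, (∀ l < w, g l ∈ Z) ∧
          ∀ l < w, ∀ l' < w, g l = g l' → l = l' := by
        refine ⟨fun l => if h : l < Z.card then Z.orderEmbOfFin rfl ⟨l, h⟩ else x, ?_, ?_⟩
        · intro l hl
          simp only
          rw [dif_pos (by omega)]
          exact Finset.orderEmbOfFin_mem _ _ _
        · intro l hl l' hl' h
          simp only at h
          rw [dif_pos (by omega), dif_pos (by omega)] at h
          have := (Z.orderEmbOfFin rfl).injective h
          simpa using this
      have hgm : ∀ l < w, ∃ p ∈ S', p a = x ∧ p b = y ∧ p c = g l ∧ p c ∉ UC := by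
        intro l hl
        have h := hg1 l hl
        rw [hZ, mem_image] at h
        obtain ⟨p, hp, hpc⟩ := h
        have e1 := hFbm p hp
        exact ⟨p, e1.1, e1.2.1, e1.2.2.1, hpc, e1.2.2.2.2⟩
      have hyU : y ∉ UB := by
        obtain ⟨p, hp⟩ := Finset.card_pos.mp (show 0 < Fb.card by omega)
        have e1 := hFbm p hp
        rw [← e1.2.2.1]
        exact e1.2.2.2.1
      have hgU : ∀ l < w, g l ∉ UC := by
        intro l hl
        obtain ⟨p, -, -, -, h4, h5⟩ := hgm l hl
        rw [← h4]
        exact h5
      refine ⟨Function.update B j y, Function.update C j g, ?_, ?_, ?_⟩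
      · intro i hi l hl
        rcases Nat.lt_succ_iff_lt_or_eq.mp hi with h | h
        · rw [Function.update_of_ne (by omega), Function.update_of_ne (by omega)]
          exact hBC i h l hl
        · subst h
          rw [Function.update_self, Function.update_self]
          obtain ⟨p, h1, h2, h3, h4, -⟩ := hgm l hl
          exact ⟨p, h1, h2, h3, h4⟩
      · intro i hi i' hi' h
        rcases Nat.lt_succ_iff_lt_or_eq.mp hi with h6 | h6 <;>
          rcases Nat.lt_succ_iff_lt_or_eq.mp hi' with h7 | h7
        · rw [Function.update_of_ne (by omega), Function.update_of_ne (by omega)] at h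
          exact hB i h6 i' h7 h
        · subst h7
          rw [Function.update_self, Function.update_of_ne (by omega)] at h
          exact absurd (h ▸ mem_image_of_mem B (mem_range.mpr h6)) hyU
        · subst h6
          rw [Function.update_self, Function.update_of_ne (by omega)] at h
          exact absurd (h.symm ▸ mem_image_of_mem B (mem_range.mpr h7)) hyU
        · omega
      · intro i hi i' hi' l hl l' hl' h
        rcases Nat.lt_succ_iff_lt_or_eq.mp hi with h6 | h6 <;>
          rcases Nat.lt_succ_iff_lt_or_eq.mp hi' with h7 | h7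
        · rw [Function.update_of_ne (by omega), Function.update_of_ne (by omega)] at h
          exact hC i h6 i' h7 l hl l' hl' h
        · subst h7
          rw [Function.update_self, Function.update_of_ne (by omega)] at h
          exact absurd (h ▸ mem_image_of_mem (fun q : ℕ × ℕ => C q.1 q.2)
            (mem_product.mpr ⟨mem_range.mpr h6, mem_range.mpr hl⟩ :
              (i, l) ∈ (range i') ×ˢ (range w))) (hgU l' hl')
        · subst h6
          rw [Function.update_self, Function.update_of_ne (by omega)] at h
          exact absurd (h.symm ▸ mem_image_of_mem (fun q : ℕ × ℕ => C q.1 q.2)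
            (mem_product.mpr ⟨mem_range.mpr h7, mem_range.mpr hl'⟩ :
              (i', l') ∈ (range i) ×ˢ (range w))) (hgU l hl)
        · subst h6
          subst h7
          rw [Function.update_self] at h
          exact ⟨rfl, hg2 l hl l' hl' h⟩
  obtain ⟨B, C, hBC, hB, hC⟩ := key u le_rfl
  refine ⟨x, fun j => B j, fun q => C q.1 q.2, ?_, ?_, ?_⟩
  · intro i i' h
    exact Fin.ext (hB i i.2 i' i'.2 h)
  · rintro ⟨i, l⟩ ⟨i', l'⟩ h
    have := hC i i.2 i' i'.2 l l.2 l' l'.2 h
    exact Prod.ext (Fin.ext this.1) (Fin.ext this.2)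
  · intro j l
    exact hBC j j.2 l l.2

end H773U
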