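import Pool.Agent.H773R2.UD.Defs

namespace H773U

open Finset

theorem EM2_del {n : ℕ} (S : Tr n) (a : Fin 3) (U : Finset (Fin n)) (Δ m : ℕ)
    (hΔ : ∀ v, dg S a v ≤ Δ) (hU : U.card ≤ m) :
    (S.filter (fun p => p a ∈ U)).card ≤ m * Δ := by
  classical
  have h1 : S.filter (fun p => p a ∈ U) ⊆ U.biUnion (fun v => S.filter (fun p => p a = v)) := by
    intro p hp
    rw [mem_filter] at hp
    rw [mem_biUnion]
    exact ⟨p a, hp.2, by rw [mem_filter]; exact ⟨hp.1, rfl⟩⟩
  calc (S.filter (fun p => p a ∈ U)).card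
      ≤ (U.biUnion (fun v => S.filter (fun p => p a = v))).card := card_le_card h1
    _ ≤ ∑ v ∈ U, (S.filter (fun p => p a = v)).card := card_biUnion_le
    _ ≤ ∑ v ∈ U, Δ := sum_le_sum (fun v _ => hΔ v)
    _ = U.card * Δ := by rw [sum_const, smul_eq_mul]
    _ ≤ m * Δ := Nat.mul_le_mul_right _ hU

theorem EM2 (h : S_EM1) : S_EM2 := by
  classical
  intro n S a b c t u w Δa Δb Δc Γb Γc hab hac hbc ht hu hw hS hΔa hΔb hΔc h1 h2 h3 hΓb hΓc h4 h5 h6
  obtain ⟨p0, hp0⟩ := hS
  have key : ∀ i : ℕ, i ≤ t → ∃ (A : ℕ → Fin n) (B : ℕ → Fin u → Fin n)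
      (C : ℕ → Fin u × Fin w → Fin n),
      (∀ j, j < i → ∀ j', j' < i → A j = A j' → j = j') ∧
      (∀ j, j < i → ∀ j', j' < i → ∀ x x', B j x = B j' x' → j = j' ∧ x = x') ∧
      (∀ j, j < i → ∀ j', j' < i → ∀ x x', C j x = C j' x' → j = j' ∧ x = x') ∧
      ∀ j, j < i → ∀ x l, ∃ p ∈ S, p a = A j ∧ p b = B j x ∧ p c = C j (x, l) := by
    intro i
    induction i with
    | zero =>
      intro _
      refine ⟨fun _ => p0 a, fun _ _ => p0 a, fun _ _ => p0 a, ?_, ?_, ?_, ?_⟩
      · intro j hj; exact absurd hj (Nat.not_lt_zero _)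
      · intro j hj; exact absurd hj (Nat.not_lt_zero _)
      · intro j hj; exact absurd hj (Nat.not_lt_zero _)
      · intro j hj; exact absurd hj (Nat.not_lt_zero _)
    | succ i ih =>
      intro hi
      obtain ⟨A, B, C, hA, hB, hC, hP⟩ := ih (by omega)
      set UA : Finset (Fin n) := (range i).image A with hUA
      set UB : Finset (Fin n) := ((range i) ×ˢ (univ : Finset (Fin u))).image (fun q => B q.1 q.2) with hUB
      set UC : Finset (Fin n) :=
        ((range i) ×ˢ (univ : Finset (Fin u × Fin w))).image (fun q => C q.1 q.2) with hUC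
      have cA : UA.card ≤ t - 1 := by
        refine card_image_le.trans ?_
        rw [card_range]; omega
      have cB : UB.card ≤ t * u := by
        refine card_image_le.trans ?_
        rw [card_product, card_range, card_univ, Fintype.card_fin]
        exact Nat.mul_le_mul_right _ (by omega)
      have cC : UC.card ≤ t * u * w := by
        refine card_image_le.trans ?_
        rw [card_product, card_range, card_univ, Fintype.card_prod, Fintype.card_fin,
          Fintype.card_fin, mul_assoc t u w]
        exact Nat.mul_le_mul_right _ (by omega)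
      set S' : Tr n := S.filter (fun p => p a ∉ UA ∧ p b ∉ UB ∧ p c ∉ UC) with hS'
      have hsub : S ⊆ S' ∪ (S.filter (fun p => p a ∈ UA) ∪
          (S.filter (fun p => p b ∈ UB) ∪ S.filter (fun p => p c ∈ UC))) := by
        intro p hp
        simp only [hS', mem_union, mem_filter]
        by_cases ha : p a ∈ UA
        · exact Or.inr (Or.inl ⟨hp, ha⟩)
        · by_cases hb : p b ∈ UB
          · exact Or.inr (Or.inr (Or.inl ⟨hp, hb⟩))
          · by_cases hc : p c ∈ UC
            · exact Or.inr (Or.inr (Or.inr ⟨hp, hc⟩))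
            · exact Or.inl ⟨hp, ha, hb, hc⟩
      have hcard : S.card ≤ S'.card + ((t - 1) * Δa + (t * u * Δb + t * u * w * Δc)) := by
        refine (card_le_card hsub).trans ?_
        refine (card_union_le _ _).trans ?_
        refine Nat.add_le_add_left ?_ _
        refine (card_union_le _ _).trans ?_
        refine Nat.add_le_add (EM2_del S a UA Δa _ hΔa cA) ?_
        refine (card_union_le _ _).trans ?_
        exact Nat.add_le_add (EM2_del S b UB Δb _ hΔb cB) (EM2_del S c UC Δc _ hΔc cC)
      have h58 : 5 * S.card ≤ 8 * S'.card := by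
        have e1 : 8 * ((t - 1) * Δa) ≤ S.card := by rw [← mul_assoc]; exact h1
        have e2 : 8 * (t * u * Δb) ≤ S.card := by rw [← mul_assoc]; exact h2
        have e3 : 8 * (t * u * w * Δc) ≤ S.card := by rw [← mul_assoc]; exact h3
        omega
      obtain ⟨x, B', C', hB', hC', hP'⟩ := h n S S' a b c u w Γb Γc hab hac hbc hu hw ⟨p0, hp0⟩
        (filter_subset _ _) h58 hΓb hΓc h4 h5 h6
      have hmem : ∀ p ∈ S', p ∈ S ∧ p a ∉ UA ∧ p b ∉ UB ∧ p c ∉ UC := by
        intro p hp; rw [hS', mem_filter] at hp; exact hp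
      have nx : x ∉ UA := by
        obtain ⟨p, hp, e1, _, _⟩ := hP' ⟨0, hu⟩ ⟨0, hw⟩
        rw [← e1]; exact (hmem p hp).2.1
      have nB : ∀ j, B' j ∉ UB := by
        intro j
        obtain ⟨p, hp, _, e1, _⟩ := hP' j ⟨0, hw⟩
        rw [← e1]; exact (hmem p hp).2.2.1
      have nC : ∀ q, C' q ∉ UC := by
        intro q
        obtain ⟨p, hp, _, _, e1⟩ := hP' q.1 q.2
        rw [show q = (q.1, q.2) from rfl, ← e1]; exact (hmem p hp).2.2.2
      have mA : ∀ j, j < i → A j ∈ UA := fun j hj => mem_image_of_mem _ (mem_range.2 hj)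
      have mB : ∀ j, j < i → ∀ y, B j y ∈ UB := fun j hj y =>
        mem_image.2 ⟨(j, y), mem_product.2 ⟨mem_range.2 hj, mem_univ _⟩, rfl⟩
      have mC : ∀ j, j < i → ∀ y, C j y ∈ UC := fun j hj y =>
        mem_image.2 ⟨(j, y), mem_product.2 ⟨mem_range.2 hj, mem_univ _⟩, rfl⟩
      refine ⟨fun j => if j < i then A j else x, fun j => if j < i then B j else B',
        fun j => if j < i then C j else C', ?_, ?_, ?_, ?_⟩
      · intro j hj j' hj' e
        by_cases k1 : j < i <;> by_cases k2 : j' < i
        · simp only [k1, k2, if_true] at e; exact hA j k1 j' k2 e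
        · simp only [k1, k2, if_true, if_false] at e
          exact absurd (e ▸ mA j k1) nx
        · simp only [k1, k2, if_true, if_false] at e
          exact absurd (e ▸ mA j' k2) nx
        · omega
      · intro j hj j' hj' y y' e
        by_cases k1 : j < i <;> by_cases k2 : j' < i
        · simp only [k1, k2, if_true] at e; exact hB j k1 j' k2 y y' e
        · simp only [k1, k2, if_true, if_false] at e
          exact absurd (e ▸ mB j k1 y) (nB y')
        · simp only [k1, k2, if_true, if_false] at e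
          exact absurd (e ▸ mB j' k2 y') (nB y)
        · simp only [k1, k2, if_false] at e
          exact ⟨by omega, hB' e⟩
      · intro j hj j' hj' y y' e
        by_cases k1 : j < i <;> by_cases k2 : j' < i
        · simp only [k1, k2, if_true] at e; exact hC j k1 j' k2 y y' e
        · simp only [k1, k2, if_true, if_false] at e
          exact absurd (e ▸ mC j k1 y) (nC y')
        · simp only [k1, k2, if_true, if_false] at e
          exact absurd (e ▸ mC j' k2 y') (nC y)
        · simp only [k1, k2, if_false] at e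
          exact ⟨by omega, hC' e⟩
      · intro j hj y l
        by_cases k1 : j < i
        · simp only [k1, if_true]; exact hP j k1 y l
        · simp only [k1, if_false]
          obtain ⟨p, hp, e⟩ := hP' y l
          exact ⟨p, (hmem p hp).1, e⟩
  obtain ⟨A, B, C, hA, hB, hC, hP⟩ := key t le_rfl
  refine ⟨fun i => A i, fun q => B q.1 q.2, fun q => C q.1 q.2, ?_, ?_, ?_, ?_⟩
  · intro i j e
    exact Fin.ext (hA i i.2 j j.2 e)
  · rintro ⟨i, x⟩ ⟨j, y⟩ e
    have := hB i i.2 j j.2 x y e
    exact Prod.ext (Fin.ext this.1) this.2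
  · rintro ⟨i, x⟩ ⟨j, y⟩ e
    have := hC i i.2 j j.2 x y e
    exact Prod.ext (Fin.ext this.1) this.2
  · intro i j l
    exact hP i i.2 j l

end H773U
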