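import Pool.Agent.H773R2.UD.Defs

/-! GR: greedy decomposition. -/

namespace H773U

open Finset

theorem GR_aux {n k : ℕ} {M : ℝ} (hk : 1 ≤ k) (hM : 1 ≤ M)
    (hD : ∀ (H : Fin k → ES n) (e : ℕ), 1 ≤ e → (∀ i, ∀ s ∈ H i, s.card = 3) →
      (∀ i, (H i).card = e) →
      ∃ D : Fin k → ES n, IsCommon H D ∧ ∀ i, (e : ℝ) ≤ M * ((D i).card : ℝ)) :
    ∀ e : ℕ, ∀ H : Fin k → ES n, (∀ i, ∀ s ∈ H i, s.card = 3) → (∀ i, (H i).card = e) →
    ∃ t : ℕ, IsUDecomp H t ∧ (e = 0 → t = 0) ∧ (1 ≤ e → (t : ℝ) ≤ M * (1 + Real.log e)) := by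
  intro e
  induction e using Nat.strong_induction_on with
  | _ e ih =>
    intro H h3 he
    rcases Nat.eq_zero_or_pos e with h0 | h0
    · refine ⟨0, ⟨fun _ j => j.elim0, fun _ j => j.elim0, fun i => ?_, fun j => j.elim0⟩,
        fun _ => rfl, fun h => by omega⟩
      have := he i
      rw [h0, card_eq_zero] at this
      rw [this]
      rfl
    · obtain ⟨D, ⟨hsub, hiso, hcard⟩, hM'⟩ := hD H e h0 h3 he
      obtain ⟨i0⟩ : Nonempty (Fin k) := ⟨⟨0, hk⟩⟩
      obtain ⟨d, hd0⟩ : ∃ d, d = (D i0).card := ⟨_, rfl⟩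
      have hd : ∀ i, (D i).card = d := fun i => (hcard i i0).trans hd0.symm
      have hMd := hM' i0
      rw [hd i0] at hMd
      have heR : (1 : ℝ) ≤ e := by exact_mod_cast h0
      have hdpos : 0 < d := by
        rcases Nat.eq_zero_or_pos d with h | h
        · rw [h, Nat.cast_zero, mul_zero] at hMd
          linarith
        · exact h
      have hde : d ≤ e := by
        rw [← he i0, ← hd i0]; exact card_le_card (hsub i0)
      obtain ⟨t', ⟨E', hE1, hE2, hE3⟩, ht0, ht1⟩ := ih (e - d) (by omega) (fun i => H i \ D i)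
        (fun i s hs => h3 i s (mem_sdiff.1 hs).1)
        (fun i => by rw [card_sdiff_of_subset (hsub i), he, hd])
      have hE2'' : ∀ i, univ.biUnion (E' i) = H i \ D i := hE2
      have hE2' : ∀ i j, Disjoint (D i) (E' i j) := by
        intro i j
        have h4 : E' i j ⊆ H i \ D i := by
          rw [← hE2'' i]
          exact subset_biUnion_of_mem (E' i) (mem_univ j)
        exact disjoint_of_subset_right h4 disjoint_sdiff
      refine ⟨t' + 1, ⟨fun i => Fin.cons (D i) (E' i), ?_, ?_, ?_⟩, by omega, ?_⟩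
      · intro i j j'
        refine Fin.cases ?_ (fun j => ?_) j <;> refine Fin.cases ?_ (fun j' => ?_) j'
        · intro h; exact absurd rfl h
        · intro _; simpa using hE2' i j'
        · intro _; simpa using (hE2' i j).symm
        · intro h
          simpa using hE1 i j j' (fun h' => h (by rw [h']))
      · intro i
        ext s
        simp only [mem_biUnion, mem_univ, true_and, Fin.exists_fin_succ, Fin.cons_zero,
          Fin.cons_succ]
        have h5 : (∃ j, s ∈ E' i j) ↔ s ∈ H i \ D i := by
          rw [← hE2'' i]; simp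
        rw [h5, mem_sdiff]
        constructor
        · rintro (h | h)
          · exact hsub i h
          · exact h.1
        · intro h
          by_cases h6 : s ∈ D i
          · exact Or.inl h6
          · exact Or.inr ⟨h, h6⟩
      · intro j i i'
        refine Fin.cases ?_ (fun j => ?_) j
        · simpa using hiso i i'
        · simpa using hE3 j i i'
      · intro _
        push_cast
        have hlog : 0 ≤ Real.log e := Real.log_nonneg heR
        rcases Nat.eq_zero_or_pos (e - d) with h6 | h6
        · rw [ht0 h6, Nat.cast_zero, zero_add]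
          nlinarith
        · have h7 := ht1 h6
          have hsubR : ((e - d : ℕ) : ℝ) = (e : ℝ) - d := Nat.cast_sub hde
          rw [hsubR] at h7
          have h8 : (0 : ℝ) < (e : ℝ) - d := by
            rw [← hsubR]; exact_mod_cast h6
          have he0 : (0 : ℝ) < e := by linarith
          have h9 := Real.one_sub_inv_le_log_of_pos (div_pos he0 h8)
          rw [Real.log_div he0.ne' h8.ne', inv_div] at h9
          have h10 : 1 - ((e : ℝ) - d) / e = d / e := by field_simp; ring
          rw [h10] at h9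
          have h11 : 1 ≤ M * ((d : ℝ) / e) := by
            rw [← mul_div_assoc, le_div_iff₀ he0, one_mul]; exact hMd
          have h12 : M * ((d : ℝ) / e) ≤ M * (Real.log e - Real.log (e - d)) :=
            mul_le_mul_of_nonneg_left h9 (by linarith)
          calc (t' : ℝ) + 1 ≤ M * (1 + Real.log (e - d)) + M * (Real.log e - Real.log (e - d)) := by
                linarith
            _ = M * (1 + Real.log e) := by ring

theorem GR : S_GR := by
  intro n k M hn hk hM hD
  have hnR : (1 : ℝ) ≤ n := by exact_mod_cast hn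
  have hlog : 0 ≤ Real.log n := Real.log_nonneg hnR
  have hnn : 0 ≤ M * (1 + 3 * Real.log n) := by positivity
  refine ⟨⌊M * (1 + 3 * Real.log n)⌋₊, Nat.floor_le hnn, ?_⟩
  intro H h3 hc
  obtain ⟨i0⟩ : Nonempty (Fin k) := ⟨⟨0, hk⟩⟩
  obtain ⟨t, h1, h2, h4⟩ := GR_aux hk hM hD (H i0).card H h3 (fun i => hc i i0)
  refine ⟨t, ?_, h1⟩
  rcases Nat.eq_zero_or_pos (H i0).card with h0 | h0
  · rw [h2 h0]; exact Nat.zero_le _
  · apply Nat.le_floor
    refine (h4 h0).trans ?_
    apply mul_le_mul_of_nonneg_left _ (by linarith)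
    have h5 : (H i0).card ≤ n ^ 3 := by
      calc (H i0).card ≤ (powersetCard 3 (univ : Finset (Fin n))).card :=
            card_le_card (fun s hs => mem_powersetCard.2 ⟨subset_univ _, h3 i0 s hs⟩)
        _ = n.choose 3 := by rw [card_powersetCard, card_univ, Fintype.card_fin]
        _ ≤ n ^ 3 := Nat.choose_le_pow n 3
    have h6 : ((H i0).card : ℝ) ≤ (n : ℝ) ^ 3 := by exact_mod_cast h5
    have h7 : Real.log (H i0).card ≤ Real.log ((n : ℝ) ^ 3) :=
      Real.log_le_log (by exact_mod_cast h0) h6
    rw [Real.log_pow] at h7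
    push_cast at h7
    linarith

end H773U
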