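import Pool.Agent.H773R2.UD.Defs

/-! The image of an edge set under a permutation of the vertices is isomorphic to it. -/

namespace H773U

open Finset

lemma ISO1_cov {n : ℕ} (σ : Equiv.Perm (Fin n)) (E : ES n) (v : Fin n) :
    v ∈ cov E ↔ σ v ∈ cov (img σ E) := by
  unfold cov img
  simp only [mem_biUnion, mem_image, id_eq, exists_exists_and_eq_and]
  constructor
  · rintro ⟨s, hs, hv⟩
    exact ⟨s, hs, v, hv, rfl⟩
  · rintro ⟨s, hs, w, hw, h⟩
    have hwv := σ.injective h
    subst hwv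
    exact ⟨s, hs, hw⟩

lemma ISO1_mem {n : ℕ} (σ : Equiv.Perm (Fin n)) (E : ES n) (s : Finset (Fin n)) :
    s ∈ E ↔ s.image σ ∈ img σ E := by
  unfold img
  constructor
  · intro h
    exact mem_image_of_mem _ h
  · intro h
    obtain ⟨s', hs', h'⟩ := mem_image.1 h
    have := Finset.image_injective σ.injective h'
    rw [← this]
    exact hs'

theorem ISO1 : S_ISO1 := by
  intro n σ E
  refine ⟨σ.subtypeEquiv (fun v => ISO1_cov σ E v), ?_⟩
  intro s
  rw [ISO1_mem σ E]
  have : (s.map (Function.Embedding.subtype _)).image σ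
      = (s.map (σ.subtypeEquiv (fun v => ISO1_cov σ E v)).toEmbedding).map
        (Function.Embedding.subtype _) := by
    ext x
    simp only [mem_image, mem_map, Function.Embedding.coe_subtype, Equiv.coe_toEmbedding]
    constructor
    · rintro ⟨y, ⟨z, hz, rfl⟩, rfl⟩
      exact ⟨σ.subtypeEquiv (fun v => ISO1_cov σ E v) z, ⟨z, hz, rfl⟩, rfl⟩
    · rintro ⟨y, ⟨z, hz, rfl⟩, rfl⟩
      exact ⟨z.1, ⟨z, hz, rfl⟩, rfl⟩
  rw [this]

end H773U
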