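import Pool.Agent.H773R2.UD.Defs

/-! ISO2: isomorphic edge sets are images of each other under a permutation. -/

namespace H773U

open Finset

theorem ISO2_image {n : ℕ} {E E' : ES n} (f : {v // v ∈ cov E} ≃ {v // v ∈ cov E'})
    (s : Finset {v // v ∈ cov E}) :
    (s.map (Function.Embedding.subtype _)).image f.extendSubtype =
      (s.map f.toEmbedding).map (Function.Embedding.subtype _) := by
  ext y
  simp only [mem_image, mem_map, Function.Embedding.subtype_apply, Equiv.coe_toEmbedding]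
  constructor
  · rintro ⟨x, ⟨z, hz, rfl⟩, rfl⟩
    refine ⟨f z, ⟨z, hz, rfl⟩, ?_⟩
    rw [Equiv.extendSubtype_apply_of_mem f z.1 z.2]
  · rintro ⟨w, ⟨z, hz, rfl⟩, rfl⟩
    refine ⟨z.1, ⟨z, hz, rfl⟩, ?_⟩
    rw [Equiv.extendSubtype_apply_of_mem f z.1 z.2]

theorem ISO2_sub {n : ℕ} {E : ES n} {s : Finset (Fin n)} (hs : s ∈ E) :
    (s.subtype (fun v => v ∈ cov E)).map (Function.Embedding.subtype _) = s := by
  apply Finset.subtype_map_of_mem
  intro v hv
  exact mem_biUnion.mpr ⟨s, hs, hv⟩

theorem ISO2 : S_ISO2 := by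
  intro n E E' ⟨f, hf⟩
  refine ⟨f.extendSubtype, ?_⟩
  ext s'
  simp only [img, mem_image]
  constructor
  · rintro ⟨s, hs, rfl⟩
    have h1 := ISO2_sub hs
    have h2 := (hf (s.subtype (fun v => v ∈ cov E))).mp (by rw [h1]; exact hs)
    rw [← ISO2_image, h1] at h2
    exact h2
  · intro hs
    have h1 := ISO2_sub hs
    have h3 : ((s'.subtype (fun v => v ∈ cov E')).map f.symm.toEmbedding).map f.toEmbedding =
        s'.subtype (fun v => v ∈ cov E') := by
      rw [Finset.map_map]
      convert Finset.map_refl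
      ext x
      simp
    have h2 := (hf ((s'.subtype (fun v => v ∈ cov E')).map f.symm.toEmbedding)).mpr
      (by rw [h3, h1]; exact hs)
    refine ⟨_, h2, ?_⟩
    rw [ISO2_image, h3, h1]

end H773U
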