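import Pool.Agent.H773R2.UD.Defs

namespace H773U

open Finset

theorem LO (hCN2 : S_CN2) (hCN3 : S_CN3) (hLOA : S_LOA) (hLOB : S_LOB) : S_LO := by
  intro k hk
  obtain ⟨k', rfl⟩ : ∃ k', k = k' + 1 := ⟨k - 1, by omega⟩
  have hk' : 1 ≤ k' := by omega
  obtain ⟨c, hc, hmain⟩ := hLOB k' hk'
  refine ⟨c, hc, ?_⟩
  intro n hn hne
  set T := U (k' + 1) n 3 with hT
  have hsuf : Suff (k' + 1) n 3 T := by
    have : T ∈ {t : ℕ | Suff (k' + 1) n 3 t} := Nat.sInf_mem hne
    exact this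
  have hT1 : 1 ≤ T := by
    by_contra hlt
    have hT0 : T = 0 := by omega
    rw [hT0] at hsuf
    -- the family of single edges
    let s : Finset (Fin n) := {⟨0, by omega⟩, ⟨1, by omega⟩, ⟨2, by omega⟩}
    have hs3 : s.card = 3 := by
      rw [Finset.card_eq_three]
      refine ⟨⟨0, by omega⟩, ⟨1, by omega⟩, ⟨2, by omega⟩, ?_, ?_, ?_, rfl⟩ <;>
        simp [Fin.ext_iff]
    obtain ⟨t', ht', E, _, hE, _⟩ := hsuf (fun _ => {s}) (by
      intro i e he
      simp only [mem_singleton] at he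
      rw [he]; exact hs3) (by intros; rfl)
    have ht0 : t' = 0 := by omega
    subst ht0
    have := hE ⟨0, by omega⟩
    simp at this
  have := hmain n hn T hT1 (by
    intro v K q hv hvn hq hq1 hvp hK
    by_cases hqe : q ≤ v.choose 3
    · obtain ⟨H, hH3, hHe, hbad⟩ := hCN2 n v q (v.choose 3) k' hvn rfl hqe
        (hCN3 n v K q (v.choose 3) k' hk' hv hvn rfl hq hq1 hqe hvp hK)
      exact hLOA n v q (v.choose 3) k' H hvn rfl hq1 hH3 hHe hbad T hsuf
    · push Not at hqe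
      calc v.choose 3 ≤ q := hqe.le
        _ ≤ T * q := Nat.le_mul_of_pos_left q hT1)
  have hcast : ((k' + 1 : ℕ) : ℝ) = (k' : ℝ) + 1 := by push_cast; ring
  rw [hcast]
  exact this

end H773U
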