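import Mathlib
import Pool.Agent.H773R2.UD.Defs

/-! Task LOA: a family without large common subgraphs needs many parts. -/

namespace H773U

open Finset

theorem LOA_card_Kv (n v : ℕ) (hv : v ≤ n) : (Kv n v).card = v.choose 3 := by
  unfold Kv
  rw [Finset.card_powersetCard]
  congr 1
  have h : (univ.filter (fun x : Fin n => (x : ℕ) < v)) = (univ : Finset (Fin v)).image (Fin.castLE hv) := by
    ext x
    simp only [mem_filter, mem_univ, true_and, mem_image]
    constructor
    · intro hx
      exact ⟨⟨x, hx⟩, by ext; simp⟩
    · rintro ⟨y, rfl⟩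
      simp
  rw [h, Finset.card_image_of_injective _ (Fin.castLE_injective hv)]
  simp

theorem LOA (hI : S_ISO2) : S_LOA := by
  intro n v q e k H hv he hq hH3 hHe hno t hS
  have hK : (Kv n v).card = e := by rw [LOA_card_Kv n v hv, he]
  obtain ⟨t', ht', E, hdis, hun, hiso⟩ := hS (Fin.cons (Kv n v) H : Fin (k + 1) → ES n)
    (by
      intro i
      refine Fin.cases ?_ (fun i => ?_) i
      · intro s hs
        simp only [Fin.cons_zero] at hs
        exact (Finset.mem_powersetCard.mp hs).2
      · intro s hs
        simp only [Fin.cons_succ] at hs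
        exact hH3 i s hs)
    (by
      have h1 : ∀ i : Fin (k + 1), ((Fin.cons (Kv n v) H : Fin (k + 1) → ES n) i).card = e := by
        intro i
        refine Fin.cases ?_ (fun i => ?_) i
        · simpa using hK
        · simpa using hHe i
      intro i i'
      rw [h1 i, h1 i'])
  have hsub : ∀ i j, E i j ⊆ (Fin.cons (Kv n v) H : Fin (k + 1) → ES n) i := by
    intro i j
    rw [← hun i]
    exact Finset.subset_biUnion_of_mem (E i) (mem_univ j)
  have hlt : ∀ j, (E 0 j).card < q := by
    intro j
    by_contra hc
    push Not at hc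
    obtain ⟨D, hD, hDc⟩ := Finset.exists_subset_card_eq hc
    apply hno
    refine ⟨D, ?_, hDc, ?_⟩
    · have := hsub 0 j
      simp only [Fin.cons_zero] at this
      exact hD.trans this
    · intro i
      obtain ⟨σ, hσ⟩ := hI n (E 0 j) (E i.succ j) (hiso j 0 i.succ)
      refine ⟨σ, ?_⟩
      have h2 := hsub i.succ j
      simp only [Fin.cons_succ] at h2
      refine subset_trans ?_ h2
      rw [← hσ]
      unfold img
      exact Finset.image_subset_image hD
  have h3 : e = (univ.biUnion (E 0)).card := by
    rw [hun 0, Fin.cons_zero, hK]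
  calc e = (univ.biUnion (E 0)).card := h3
    _ ≤ ∑ j, (E 0 j).card := Finset.card_biUnion_le
    _ ≤ ∑ _j : Fin t', q := Finset.sum_le_sum (fun j _ => (hlt j).le)
    _ = t' * q := by simp
    _ ≤ t * q := Nat.mul_le_mul_right _ ht'

end H773U
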