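import Pool.Agent.H773R2.UD.Defs

namespace H773U

lemma LOB_choose (v : ℕ) (hv : 6 ≤ v) : (v : ℝ) ^ 3 / 12 ≤ (v.choose 3 : ℝ) := by
  have h1 : v.choose 3 * 6 = v * (v - 1) * (v - 2) := by
    have h := Nat.descFactorial_eq_factorial_mul_choose v 3
    have h3 : Nat.factorial 3 = 6 := by decide
    rw [h3] at h
    have h4 : v.descFactorial 3 = (v - 2) * ((v - 1) * (v * 1)) := by
      simp [Nat.descFactorial]
    rw [h4] at h
    rw [mul_comm, ← h]; ring
  have h2 : ((v.choose 3 : ℕ) : ℝ) * 6 = (v : ℝ) * (v - 1) * (v - 2) := by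
    have h := congrArg (fun x : ℕ => (x : ℝ)) h1
    simp only [Nat.cast_mul, Nat.cast_ofNat] at h
    rw [Nat.cast_sub (by omega), Nat.cast_sub (by omega)] at h
    simpa using h
  have hv' : (6 : ℝ) ≤ v := by exact_mod_cast hv
  have h5 : (v : ℝ) ^ 2 ≤ 2 * ((v - 1) * (v - 2)) := by nlinarith
  have h6 : (v : ℝ) * (v : ℝ) ^ 2 ≤ v * (2 * ((v - 1) * (v - 2))) :=
    mul_le_mul_of_nonneg_left h5 (by linarith)
  nlinarith

theorem LOB : S_LOB := by
  intro k hk
  refine ⟨1 / (144 * k), by positivity, ?_⟩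
  intro n hn T hT hyp
  have hk' : (1 : ℝ) ≤ k := by exact_mod_cast hk
  have hn' : (3 : ℝ) ≤ n := by exact_mod_cast hn
  have hT' : (1 : ℝ) ≤ T := by exact_mod_cast hT
  set g : ℝ := 3 * k / (3 * k + 2) with hg
  have hg0 : 0 ≤ g := by positivity
  have hg1 : g ≤ 1 := by
    rw [hg, div_le_one (by positivity)]; linarith
  have hexp : (2 : ℝ) - 4 / (3 * ((k : ℝ) + 1) - 1) = g * (2 : ℕ) := by
    rw [hg]
    have h1 : (3 * (k : ℝ) + 2) ≠ 0 := by positivity
    have h2 : (3 * ((k : ℝ) + 1) - 1) = 3 * k + 2 := by ring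
    rw [h2]; field_simp; push_cast; ring
  have hlog : 1 ≤ Real.log n := by
    rw [Real.le_log_iff_exp_le (by linarith)]
    exact (Real.exp_one_lt_d9.le.trans (by norm_num)).trans hn'
  have hn0 : (0 : ℝ) ≤ n := by linarith
  set x : ℝ := (n : ℝ) ^ g with hx
  have hx1 : 1 ≤ x := Real.one_le_rpow (by linarith) hg0
  have hxn : x ≤ n := by
    calc x ≤ (n : ℝ) ^ (1 : ℝ) := Real.rpow_le_rpow_of_exponent_le (by linarith) hg1
      _ = n := Real.rpow_one _
  have hxp : (n : ℝ) ^ (2 - 4 / (3 * ((k : ℝ) + 1) - 1)) = x ^ 2 := by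
    rw [hexp, Real.rpow_mul_natCast hn0]
  set v : ℕ := ⌊x⌋₊ with hv
  have hv1 : 1 ≤ v := Nat.le_floor (by simpa using hx1)
  have hvx : (v : ℝ) ≤ x := Nat.floor_le (by linarith)
  have hvx2 : x < v + 1 := Nat.lt_floor_add_one x
  have hvn : v ≤ n := by
    have : (v : ℝ) ≤ n := hvx.trans hxn
    exact_mod_cast this
  have hvpow : v ^ (3 * k + 2) ≤ n ^ (3 * k) := by
    have h1 : (v : ℝ) ^ (3 * k + 2) ≤ x ^ (3 * k + 2) :=
      pow_le_pow_left₀ (by positivity) hvx _
    have h2 : x ^ (3 * k + 2) = (n : ℝ) ^ (3 * k) := by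
      rw [hx, ← Real.rpow_natCast, ← Real.rpow_mul hn0, ← Real.rpow_natCast]
      congr 1
      rw [hg]; push_cast
      have h1 : (3 * (k : ℝ) + 2) ≠ 0 := by positivity
      field_simp
    rw [h2] at h1
    exact_mod_cast h1
  set K : ℕ := k * (Nat.log 2 n + 1) with hK
  have hKpow : n ^ k < 2 ^ K := by
    rw [hK, mul_comm, pow_mul]
    exact Nat.pow_lt_pow_left (Nat.lt_pow_succ_log_self (by norm_num) n) (by omega)
  have hK1 : 1 ≤ K := by
    rw [hK]; exact Nat.mul_pos hk (Nat.succ_pos _)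
  have hmain := hyp v K (K * v) hv1 hvn rfl (Nat.mul_pos hK1 hv1) hvpow hKpow
  have hmain' : ((v.choose 3 : ℕ) : ℝ) ≤ T * (K * v) := by exact_mod_cast hmain
  -- bound of K
  have hlog2 : (Nat.log 2 n : ℝ) ≤ 2 * Real.log n := by
    have h1 : (2 : ℕ) ^ (Nat.log 2 n) ≤ n := Nat.pow_log_le_self 2 (by omega)
    have h2 : ((2 : ℝ)) ^ (Nat.log 2 n) ≤ n := by exact_mod_cast h1
    have h3 : Real.log ((2 : ℝ) ^ (Nat.log 2 n)) ≤ Real.log n :=
      Real.log_le_log (by positivity) h2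
    rw [Real.log_pow] at h3
    have h4 : (0.6931471803 : ℝ) < Real.log 2 := Real.log_two_gt_d9
    have h5 : (0 : ℝ) ≤ (Nat.log 2 n : ℝ) := Nat.cast_nonneg _
    nlinarith
  have hKle : (K : ℝ) ≤ k * (3 * Real.log n) := by
    rw [hK]; push_cast
    apply mul_le_mul_of_nonneg_left _ (by linarith)
    linarith
  rw [hxp]
  have hgoal : x ^ 2 ≤ 144 * k * T * Real.log n := by
    by_cases h6 : 6 ≤ v
    · have h7 := LOB_choose v h6
      have h8 : (v : ℝ) ^ 3 / 12 ≤ T * (K * v) := h7.trans hmain'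
      have hvpos : (0 : ℝ) < v := by
        have : (6 : ℝ) ≤ v := by exact_mod_cast h6
        linarith
      have h9 : (v : ℝ) ^ 2 ≤ 12 * T * K := by
        have h10 : (v : ℝ) * (v : ℝ) ^ 2 ≤ v * (12 * T * K) := by nlinarith
        exact le_of_mul_le_mul_left h10 hvpos
      have hv6 : (6 : ℝ) ≤ v := by exact_mod_cast h6
      have h11 : x ≤ 2 * v := by linarith
      have h12 : x ^ 2 ≤ 4 * (v : ℝ) ^ 2 := by nlinarith
      have h13 : (12 : ℝ) * T * K ≤ 12 * T * (k * (3 * Real.log n)) :=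
        mul_le_mul_of_nonneg_left hKle (by positivity)
      nlinarith
    · have h7 : (v : ℝ) ≤ 5 := by
        have : v ≤ 5 := by omega
        exact_mod_cast this
      have h8 : x < 6 := by linarith
      have h9 : x ^ 2 ≤ 36 := by nlinarith
      have h10 : (1 : ℝ) ≤ k * T := by nlinarith
      have h11 : (1 : ℝ) ≤ k * T * Real.log n := by nlinarith
      nlinarith
  have hl0 : 0 < Real.log n := by linarith
  rw [div_le_iff₀ hl0, one_div, inv_mul_le_iff₀ (by positivity)]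
  linarith

end H773U
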