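import Pool.Agent.H773R2.UD.Defs

namespace H773U

theorem LOG_BB {n : ℕ} (hn : 2 ≤ n) : (BB n : ℝ) ≤ 5 * Real.log n := by
  have h2 : (0.6931471803 : ℝ) < Real.log 2 := Real.log_two_gt_d9
  have hn' : (2 : ℝ) ≤ n := by exact_mod_cast hn
  have hlog : Real.log 2 ≤ Real.log n := Real.log_le_log (by norm_num) hn'
  have h1 : ((2 : ℕ) : ℝ) ^ (Nat.log 2 (n ^ 2)) ≤ (n : ℝ) ^ 2 := by
    have := Nat.pow_log_le_self 2 (x := n ^ 2) (by positivity)
    exact_mod_cast this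
  have h3 : (Nat.log 2 (n ^ 2) : ℝ) * Real.log 2 ≤ 2 * Real.log n := by
    have h4 := Real.log_le_log (by positivity) h1
    rw [Real.log_pow, Real.log_pow] at h4
    push_cast at h4
    exact h4
  have h5 : (0 : ℝ) ≤ Nat.log 2 (n ^ 2) := Nat.cast_nonneg _
  unfold BB
  push_cast
  nlinarith

theorem LOG : S_LOG := by
  intro n β hn hβ
  have h2 : (0.6931471803 : ℝ) < Real.log 2 := Real.log_two_gt_d9
  have hn' : (2 : ℝ) ≤ n := by exact_mod_cast hn
  have hlog : Real.log 2 ≤ Real.log n := Real.log_le_log (by norm_num) hn'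
  have h1 := LOG_BB hn
  have h3 : (Lam n : ℝ) ^ 4 ≤ (5 * Real.log n) ^ 24 := by
    unfold Lam
    push_cast
    rw [← pow_mul]
    exact pow_le_pow_left₀ (Nat.cast_nonneg _) h1 24
  have h4 : 1 + 3 * Real.log n ≤ 5 * Real.log n := by linarith
  have h5 : (0 : ℝ) ≤ (n : ℝ) ^ β := Real.rpow_nonneg (by positivity) _
  have h6 : (Lam n : ℝ) ^ 4 * (1 + 3 * Real.log n) ≤ (5 * Real.log n) ^ 24 * (5 * Real.log n) :=
    mul_le_mul h3 h4 (by linarith) (by positivity)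
  calc 36864 * (Lam n : ℝ) ^ 4 * (n : ℝ) ^ β * (1 + 3 * Real.log n) =
        36864 * (n : ℝ) ^ β * ((Lam n : ℝ) ^ 4 * (1 + 3 * Real.log n)) := by ring
    _ ≤ 36864 * (n : ℝ) ^ β * ((5 * Real.log n) ^ 24 * (5 * Real.log n)) :=
        mul_le_mul_of_nonneg_left h6 (by positivity)
    _ = 36864 * 5 ^ 25 * (n : ℝ) ^ β * (Real.log n) ^ 25 := by ring

end H773U
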