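import Pool.Agent.H773R2.UD.Defs

set_option linter.unusedVariables false

namespace H773U

lemma LP_aux1 (E L N t u x p : ℕ) (hL : 1 ≤ L) (hu : 1 ≤ u) (hN : 1 ≤ N)
    (h1 : E ≤ p * N) (h2 : p < 32 * L * u * x) (c2 : 2048 * L ^ 3 * (t * u) ^ 2 * N ≤ E) :
    64 * L ^ 2 * (t ^ 2 * u) < x := by
  have h3 : 2048 * L ^ 3 * (t * u) ^ 2 * N ≤ p * N := c2.trans h1
  have h4 : 2048 * L ^ 3 * (t * u) ^ 2 ≤ p := Nat.le_of_mul_le_mul_right h3 hN
  have h5 : (32 * L * u) * (64 * L ^ 2 * (t ^ 2 * u)) < (32 * L * u) * x := by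
    calc (32 * L * u) * (64 * L ^ 2 * (t ^ 2 * u)) = 2048 * L ^ 3 * (t * u) ^ 2 := by ring
      _ ≤ p := h4
      _ < (32 * L * u) * x := h2
  exact lt_of_mul_lt_mul_left h5 (Nat.zero_le _)

lemma LP_aux2 (E L N t u x p q : ℕ) (hL : 1 ≤ L) (hu : 1 ≤ u) (hE : 1 ≤ E) (hx : 1 ≤ x)
    (h : E * x ≤ 2 * L * p * q) (hp : p < 32 * L * u * x)
    (c2 : 2048 * L ^ 3 * (t * u) ^ 2 * N ≤ E) :
    32 * L * (t ^ 2 * u) * N < q := by
  have hq : 0 < q := by
    rcases Nat.eq_zero_or_pos q with h0 | h0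
    · exfalso
      subst h0
      have : 1 ≤ E * x := Nat.one_le_iff_ne_zero.mpr (by positivity)
      simp at h
      omega
    · exact h0
  have h3 : E * x < (64 * L ^ 2 * u * q) * x := by
    calc E * x ≤ 2 * L * p * q := h
      _ = (2 * L * q) * p := by ring
      _ < (2 * L * q) * (32 * L * u * x) := Nat.mul_lt_mul_of_pos_left hp (by positivity)
      _ = (64 * L ^ 2 * u * q) * x := by ring
  have h4 : E < 64 * L ^ 2 * u * q := lt_of_mul_lt_mul_right h3 (Nat.zero_le _)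
  have h5 : (64 * L ^ 2 * u) * (32 * L * (t ^ 2 * u) * N) < (64 * L ^ 2 * u) * q := by
    calc (64 * L ^ 2 * u) * (32 * L * (t ^ 2 * u) * N) = 2048 * L ^ 3 * (t * u) ^ 2 * N := by ring
      _ ≤ E := c2
      _ < (64 * L ^ 2 * u) * q := h4
  exact lt_of_mul_lt_mul_left h5 (Nat.zero_le _)

/-- the combinatorial core, for sorted values -/
lemma LP_core (x y z p q r E L N t u : ℕ) (hL : 1 ≤ L) (ht : 1 ≤ t) (hu : 1 ≤ u) (hE : 1 ≤ E)
    (hx : 1 ≤ x) (hxy : x ≤ y) (hyz : y ≤ z) (hzN : z ≤ N)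
    (hp : p ≤ x * y) (hq : q ≤ x * z) (hr : r ≤ y * z)
    (e1 : E ≤ p * z) (e2 : E ≤ q * y) (e3 : E ≤ r * x)
    (f1 : E * x ≤ 2 * L * p * q) (f2 : E * y ≤ 2 * L * p * r) (f3 : E * z ≤ 2 * L * q * r)
    (c2 : 2048 * L ^ 3 * (t * u) ^ 2 * N ≤ E) (c3 : 8192 * L ^ 3 * (t * u * t) ^ 3 ≤ E) :
    (16 * L * (t * u) ≤ y ∧ 16 * L * (t * u * t) ≤ z ∧ 32 * L * u * x ≤ p ∧
      32 * L * (u * t) * x ≤ q) ∨
    (16 * L * (t * u) ≤ x ∧ 16 * L * (t * u * t) ≤ y ∧ 32 * L * u * z ≤ q ∧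
      32 * L * (u * t) * z ≤ r) ∨
    (16 * L * (t * u) ≤ z ∧ 16 * L * (t * u * t) ≤ y ∧ 32 * L * u * x ≤ q ∧
      32 * L * (u * t) * x ≤ p) ∨
    (16 * L * (t * u) ≤ x ∧ 16 * L * (t * u * t) ≤ z ∧ 32 * L * u * y ≤ p ∧
      32 * L * (u * t) * y ≤ r) := by
  have hyN : y ≤ N := hyz.trans hzN
  have hxN : x ≤ N := hxy.trans hyN
  have hN : 1 ≤ N := hx.trans hxN
  have hy : 1 ≤ y := hx.trans hxy
  have hz : 1 ≤ z := hy.trans hyz
  -- (A)
  have hA : 16 * L * (t * u * t) ≤ z := by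
    by_contra hcon
    push Not at hcon
    have h1 : E ≤ z ^ 3 := by
      calc E ≤ p * z := e1
        _ ≤ (x * y) * z := Nat.mul_le_mul_right _ hp
        _ ≤ (z * z) * z := Nat.mul_le_mul_right _ (Nat.mul_le_mul (hxy.trans hyz) hyz)
        _ = z ^ 3 := by ring
    have h2 : z ^ 3 < (16 * L * (t * u * t)) ^ 3 := Nat.pow_lt_pow_left hcon (by norm_num)
    have h3 : (16 * L * (t * u * t)) ^ 3 ≤ 8192 * L ^ 3 * (t * u * t) ^ 3 := by
      have : (16 * L * (t * u * t)) ^ 3 = 4096 * (L ^ 3 * (t * u * t) ^ 3) := by ring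
      rw [this, mul_assoc 8192]
      exact Nat.mul_le_mul_right _ (by norm_num)
    omega
  -- (B)
  have hB : 16 * L * (t * u) ≤ y := by
    by_contra hcon
    push Not at hcon
    have h1 : E ≤ y ^ 2 * N := by
      calc E ≤ q * y := e2
        _ ≤ (x * z) * y := Nat.mul_le_mul_right _ hq
        _ = (x * y) * z := by ring
        _ ≤ (y * y) * N := Nat.mul_le_mul (Nat.mul_le_mul_right _ hxy) hzN
        _ = y ^ 2 * N := by ring
    have h2 : y ^ 2 * N < (16 * L * (t * u)) ^ 2 * N :=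
      Nat.mul_lt_mul_of_pos_right (Nat.pow_lt_pow_left hcon (by norm_num)) hN
    have h3 : (16 * L * (t * u)) ^ 2 * N ≤ 2048 * L ^ 3 * (t * u) ^ 2 * N := by
      calc (16 * L * (t * u)) ^ 2 * N = (256 * L ^ 2) * ((t * u) ^ 2 * N) := by ring
        _ ≤ (2048 * L ^ 3) * ((t * u) ^ 2 * N) :=
          Nat.mul_le_mul_right _ (Nat.mul_le_mul (by norm_num) (Nat.pow_le_pow_right hL (by norm_num)))
        _ = 2048 * L ^ 3 * (t * u) ^ 2 * N := by ring
    omega
  -- bounds on t, u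
  have htt : t * u ≤ t ^ 2 * u := by nlinarith [Nat.mul_le_mul_right (t * u) ht]
  have hutt : u ≤ t ^ 2 * u := by
    have : u ≤ t * u := Nat.le_mul_of_pos_left _ ht
    exact this.trans htt
  have hLL : 16 * L ≤ 64 * L ^ 2 := by nlinarith
  have hP1 : 16 * L * (t * u) ≤ 64 * L ^ 2 * (t ^ 2 * u) := Nat.mul_le_mul hLL htt
  have hF1 : 16 * L * (t * u * t) ≤ 64 * L ^ 2 * (t ^ 2 * u) :=
    Nat.mul_le_mul hLL (le_of_eq (by ring))
  have hc : ∀ w, w ≤ N → 32 * L * u * w ≤ 32 * L * (t ^ 2 * u) * N := fun w hw =>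
    Nat.mul_le_mul (Nat.mul_le_mul_left _ hutt) hw
  have hd : ∀ w, w ≤ N → 32 * L * (u * t) * w ≤ 32 * L * (t ^ 2 * u) * N := fun w hw =>
    Nat.mul_le_mul (Nat.mul_le_mul_left _ (by rw [mul_comm u t]; exact htt)) hw
  -- product
  have hprod : (32 * L * (u * t) * x) * (32 * L * (u * t) * x) ≤ p * q := by
    have h1 : (2 * L) * ((32 * L * (u * t) * x) * (32 * L * (u * t) * x)) ≤ (2 * L) * (p * q) := by
      calc (2 * L) * ((32 * L * (u * t) * x) * (32 * L * (u * t) * x))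
          = (2048 * L ^ 3 * (t * u) ^ 2 * x) * x := by ring
        _ ≤ (2048 * L ^ 3 * (t * u) ^ 2 * N) * x :=
          Nat.mul_le_mul_right _ (Nat.mul_le_mul_left _ hxN)
        _ ≤ E * x := Nat.mul_le_mul_right _ c2
        _ ≤ 2 * L * p * q := f1
        _ = (2 * L) * (p * q) := by ring
    exact Nat.le_of_mul_le_mul_left h1 (by positivity)
  by_cases h1 : 32 * L * (u * t) * x ≤ q
  · by_cases h2 : 32 * L * u * x ≤ p
    · exact Or.inl ⟨hB, hA, h2, h1⟩
    · push Not at h2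
      have g1 := LP_aux1 E L N t u x p hL hu hN (e1.trans (Nat.mul_le_mul_left _ hzN)) h2 c2
      have g2 := LP_aux2 E L N t u x p q hL hu hE hx f1 h2 c2
      have g3 := LP_aux2 E L N t u y p r hL hu hE hy f2
        (h2.trans_le (Nat.mul_le_mul_left _ hxy)) c2
      refine Or.inr (Or.inl ⟨hP1.trans g1.le, hF1.trans (g1.le.trans hxy),
        (hc z hzN).trans g2.le, (hd z hzN).trans g3.le⟩)
  · push Not at h1
    have h3 : 32 * L * (u * t) * x ≤ p := by
      by_contra hcon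
      push Not at hcon
      have : p * q < (32 * L * (u * t) * x) * (32 * L * (u * t) * x) :=
        Nat.mul_lt_mul'' hcon h1
      omega
    by_cases h2 : 32 * L * u * x ≤ q
    · refine Or.inr (Or.inr (Or.inl ⟨hB.trans hyz, ?_, h2, h3⟩))
      by_contra hcon
      push Not at hcon
      have g1 : E < E := by
        calc E ≤ q * y := e2
          _ < (32 * L * (u * t) * x) * y := Nat.mul_lt_mul_of_pos_right h1 hy
          _ ≤ (32 * L * (u * t) * y) * y := Nat.mul_le_mul_right _ (Nat.mul_le_mul_left _ hxy)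
          _ = (32 * L * (u * t)) * (y * y) := by ring
          _ ≤ (32 * L * (u * t)) * ((16 * L * (t * u * t)) * (16 * L * (t * u * t))) :=
            Nat.mul_le_mul_left _ (Nat.mul_le_mul hcon.le hcon.le)
          _ = (8192 * L ^ 3 * (t * u * t) ^ 2) * (t * u) := by ring
          _ ≤ (8192 * L ^ 3 * (t * u * t) ^ 2) * (t * u * t) :=
            Nat.mul_le_mul_left _ (Nat.le_mul_of_pos_right _ ht)
          _ = 8192 * L ^ 3 * (t * u * t) ^ 3 := by ring
          _ ≤ E := c3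
      exact lt_irrefl _ g1
    · push Not at h2
      have g1 := LP_aux1 E L N t u x q hL hu hN (e2.trans (Nat.mul_le_mul_left _ hyN)) h2 c2
      have g2 := LP_aux2 E L N t u x q p hL hu hE hx (f1.trans (le_of_eq (by ring))) h2 c2
      have g3 := LP_aux2 E L N t u z q r hL hu hE hz f3
        (h2.trans_le (Nat.mul_le_mul_left _ (hxy.trans hyz))) c2
      exact Or.inr (Or.inr (Or.inr ⟨hP1.trans g1.le, hA, (hc y hyN).trans g2.le,
        (hd y hyN).trans g3.le⟩))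

theorem LP : S_LP := by
  intro ν m E L N t u hL ht hu hE hν hsym hm he hf c1 c2 c3
  have hN : 1 ≤ N := (hν 0).1.trans (hν 0).2
  -- always
  have hmN : ∀ a b, a ≠ b → m a b ≤ N ^ 2 := by
    intro a b hab
    calc m a b ≤ ν a * ν b := (hm a b hab).2
      _ ≤ N * N := Nat.mul_le_mul (hν a).2 (hν b).2
      _ = N ^ 2 := by ring
  have hal1 : ∀ a b c : Fin 3, a ≠ b → a ≠ c → b ≠ c → 16 * L * (t - 1) ≤ ν a := by
    intro a b c hab hac hbc
    have h1 : (16 * L * (t - 1)) * N ^ 2 ≤ ν a * N ^ 2 := by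
      calc (16 * L * (t - 1)) * N ^ 2 ≤ E := c1
        _ ≤ m b c * ν a := he b c a hbc hab.symm hac.symm
        _ ≤ N ^ 2 * ν a := Nat.mul_le_mul_right _ (hmN b c hbc)
        _ = ν a * N ^ 2 := by ring
    exact Nat.le_of_mul_le_mul_right h1 (by positivity)
  have hal2 : ∀ a b, a ≠ b → 2 * (t - 1) * m a b < E := by
    intro a b hab
    have h1 : 8 * (2 * (t - 1) * m a b) ≤ E := by
      calc 8 * (2 * (t - 1) * m a b) = (16 * 1 * (t - 1)) * m a b := by ring
        _ ≤ (16 * L * (t - 1)) * N ^ 2 :=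
          Nat.mul_le_mul (Nat.mul_le_mul_right _ (Nat.mul_le_mul_left _ hL)) (hmN a b hab)
        _ ≤ E := c1
    omega
  -- sorted case
  have key : ∀ i j k : Fin 3, i ≠ j → i ≠ k → j ≠ k → ν i ≤ ν j → ν j ≤ ν k →
      ∃ a b c : Fin 3, a ≠ b ∧ a ≠ c ∧ b ≠ c ∧
        16 * L * (t - 1) ≤ ν a ∧ 16 * L * (t * u) ≤ ν b ∧ 16 * L * (t * u * t) ≤ ν c ∧
        32 * L * u * ν a ≤ m a b ∧ 32 * L * (u * t) * ν a ≤ m a c ∧ 2 * (t - 1) * m a b < E := by
    intro i j k hij hik hjk h1 h2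
    have f2 := hf j i k hij.symm hjk hik
    have f3 := hf k i j hik.symm hjk.symm hij
    rw [hsym j i] at f2
    rw [hsym k i, hsym k j] at f3
    rcases LP_core (ν i) (ν j) (ν k) (m i j) (m i k) (m j k) E L N t u hL ht hu hE (hν i).1 h1 h2
      (hν k).2 (hm i j hij).2 (hm i k hik).2 (hm j k hjk).2
      (he i j k hij hik hjk) (he i k j hik hij hjk.symm) (he j k i hjk hij.symm hik.symm)
      (hf i j k hij hik hjk) f2 f3 c2 c3 with h | h | h | h
    · exact ⟨i, j, k, hij, hik, hjk, hal1 i j k hij hik hjk, h.1, h.2.1, h.2.2.1, h.2.2.2,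
        hal2 i j hij⟩
    · refine ⟨k, i, j, hik.symm, hjk.symm, hij, hal1 k i j hik.symm hjk.symm hij, h.1, h.2.1,
        ?_, ?_, hal2 k i hik.symm⟩
      · rw [hsym k i]; exact h.2.2.1
      · rw [hsym k j]; exact h.2.2.2
    · exact ⟨i, k, j, hik, hij, hjk.symm, hal1 i k j hik hij hjk.symm, h.1, h.2.1, h.2.2.1,
        h.2.2.2, hal2 i k hik⟩
    · refine ⟨j, i, k, hij.symm, hjk, hik, hal1 j i k hij.symm hjk hik, h.1, h.2.1,
        ?_, h.2.2.2, hal2 j i hij.symm⟩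
      rw [hsym j i]; exact h.2.2.1
  rcases le_total (ν 0) (ν 1) with h01 | h01 <;> rcases le_total (ν 1) (ν 2) with h12 | h12 <;>
    rcases le_total (ν 0) (ν 2) with h02 | h02
  · exact key 0 1 2 (by decide) (by decide) (by decide) h01 h12
  · exact key 0 1 2 (by decide) (by decide) (by decide) h01 h12
  · exact key 0 2 1 (by decide) (by decide) (by decide) h02 h12
  · exact key 2 0 1 (by decide) (by decide) (by decide) h02 h01
  · exact key 1 0 2 (by decide) (by decide) (by decide) h01 h02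
  · exact key 1 2 0 (by decide) (by decide) (by decide) h12 h02
  · exact key 2 1 0 (by decide) (by decide) (by decide) h12 h01
  · exact key 2 1 0 (by decide) (by decide) (by decide) h12 h01

end H773U
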