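import Pool.Agent.H773R2.UD.Defs

/-! A nonempty 3-graph contains `T(1,1,1)`. -/

set_option autoImplicit false

namespace H773U

open Finset

/-- the embedding of the three vertices -/
def ONE_phi {n : ℕ} (x y z : Fin n) :
    (Fin 1 ⊕ (Fin 1 × Fin 1)) ⊕ (Fin 1 × Fin 1 × Fin 1) → Fin n
  | .inl (.inl _) => x
  | .inl (.inr _) => y
  | .inr _ => z

theorem ONE : S_ONE := by
  intro n H hH hne
  obtain ⟨s, hs⟩ := hne
  obtain ⟨x, y, z, hxy, hxz, hyz, rfl⟩ := Finset.card_eq_three.1 (hH s hs)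
  refine ⟨ONE_phi x y z, ?_, fun i j l => hs⟩
  rintro ((a | a) | a) ((b | b) | b) h
  · rw [Subsingleton.elim a b]
  · exact absurd h hxy
  · exact absurd h hxz
  · exact absurd h.symm hxy
  · rw [Subsingleton.elim a b]
  · exact absurd h hyz
  · exact absurd h.symm hxz
  · exact absurd h.symm hyz
  · rw [Subsingleton.elim a b]

end H773U
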