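import Mathlib
import Pool.Agent.H773R2.UD.Defs

/-! Averaging over permutations. -/

namespace H773U

open Finset

theorem OV1_trans {n : ℕ} {d d' : Finset (Fin n)} (h : d.card = d'.card) :
    ∃ τ : Equiv.Perm (Fin n), d.image τ = d' := by
  have e : {x // x ∈ d} ≃ {x // x ∈ d'} := Finset.equivOfCardEq h
  refine ⟨Equiv.extendSubtype e, ?_⟩
  apply Finset.eq_of_subset_of_card_le
  · intro x hx
    rw [Finset.mem_image] at hx
    obtain ⟨y, hy, rfl⟩ := hx
    exact Equiv.extendSubtype_mem e y hy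
  · rw [Finset.card_image_of_injective _ (Equiv.injective _), h]

/-- the number of permutations that map `h` to `d` -/
def OV1_c {n : ℕ} (h d : Finset (Fin n)) : ℕ :=
  ((univ : Finset (Equiv.Perm (Fin n))).filter (fun σ : Equiv.Perm (Fin n) => h.image σ = d)).card

theorem OV1_c_eq {n : ℕ} (h : Finset (Fin n)) {d d' : Finset (Fin n)} (hd : d.card = d'.card) :
    OV1_c h d = OV1_c h d' := by
  obtain ⟨τ, hτ⟩ := OV1_trans hd
  unfold OV1_c
  refine Finset.card_bij' (fun (σ : Equiv.Perm (Fin n)) _ => τ * σ)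
    (fun (σ : Equiv.Perm (Fin n)) _ => τ⁻¹ * σ) ?_ ?_ ?_ ?_
  · intro σ hσ
    rw [Finset.mem_filter] at hσ ⊢
    refine ⟨Finset.mem_univ _, ?_⟩
    rw [← hτ, ← hσ.2, Finset.image_image]
    rfl
  · intro σ hσ
    rw [Finset.mem_filter] at hσ ⊢
    refine ⟨Finset.mem_univ _, ?_⟩
    have h1 : h.image (τ⁻¹ * σ : Equiv.Perm (Fin n)) = (h.image σ).image (τ⁻¹ : Equiv.Perm (Fin n)) := by
      rw [Finset.image_image]
      rfl
    rw [h1, hσ.2, ← hτ, Finset.image_image]
    have h2 : ((τ⁻¹ : Equiv.Perm (Fin n)) : Fin n → Fin n) ∘ τ = id := by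
      funext x
      simp
    rw [h2, Finset.image_id]
  · intro σ _
    simp
  · intro σ _
    simp

theorem OV1_sum {n : ℕ} {h d : Finset (Fin n)} (hh : h ∈ K3 n) (hd : d ∈ K3 n) :
    n.choose 3 * OV1_c h d = n.factorial := by
  unfold K3 at hh hd
  rw [Finset.mem_powersetCard] at hh hd
  have h1 : ∑ d' ∈ powersetCard 3 (univ : Finset (Fin n)), OV1_c h d' = n.factorial := by
    have h2 := Finset.card_eq_sum_card_fiberwise (s := (univ : Finset (Equiv.Perm (Fin n))))
      (t := powersetCard 3 (univ : Finset (Fin n))) (f := fun σ : Equiv.Perm (Fin n) => h.image σ) (by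
        intro σ _
        rw [Finset.mem_coe, Finset.mem_powersetCard]
        exact ⟨Finset.subset_univ _,
          (Finset.card_image_of_injective _ (Equiv.injective _)).trans hh.2⟩)
    rw [Finset.card_univ, Fintype.card_perm, Fintype.card_fin] at h2
    rw [h2]
    rfl
  have h3 : ∑ d' ∈ powersetCard 3 (univ : Finset (Fin n)), OV1_c h d' =
      ∑ _d' ∈ powersetCard 3 (univ : Finset (Fin n)), OV1_c h d := by
    refine Finset.sum_congr rfl fun d' hd' => ?_
    rw [Finset.mem_powersetCard] at hd'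
    exact OV1_c_eq h (by rw [hd'.2, hd.2])
  rw [h3, Finset.sum_const, Finset.card_powersetCard, Finset.card_univ, Fintype.card_fin,
    smul_eq_mul] at h1
  exact h1

theorem OV1_inter {n : ℕ} (D H : ES n) (σ : Equiv.Perm (Fin n)) :
    (D ∩ img σ H).card = (H.filter (fun h => h.image σ ∈ D)).card := by
  have hinj : Function.Injective (fun s : Finset (Fin n) => s.image σ) :=
    Finset.image_injective (Equiv.injective σ)
  rw [← Finset.card_image_of_injective (H.filter (fun h => h.image σ ∈ D)) hinj]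
  congr 1
  ext d
  unfold img
  simp only [Finset.mem_inter, Finset.mem_image, Finset.mem_filter]
  constructor
  · rintro ⟨h1, h, h2, rfl⟩
    exact ⟨h, ⟨h2, h1⟩, rfl⟩
  · rintro ⟨h, ⟨h2, h1⟩, rfl⟩
    exact ⟨h1, h, h2, rfl⟩

theorem OV1 : S_OV1 := by
  intro n D H hD hH
  by_contra hcon
  push Not at hcon
  have h1 : n.choose 3 * ∑ σ : Equiv.Perm (Fin n), (D ∩ img σ H).card =
      H.card * D.card * n.factorial := by
    have h2 : ∀ σ : Equiv.Perm (Fin n), (D ∩ img σ H).card =
        ∑ h ∈ H, ∑ d ∈ D, if h.image σ = d then 1 else 0 := by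
      intro σ
      rw [OV1_inter, Finset.card_filter]
      refine Finset.sum_congr rfl fun h _ => ?_
      rw [Finset.sum_ite_eq]
    simp only [h2]
    rw [Finset.sum_comm, Finset.mul_sum]
    have h3 : ∀ h ∈ H, n.choose 3 * ∑ σ : Equiv.Perm (Fin n), ∑ d ∈ D,
        (if h.image σ = d then 1 else 0) = D.card * n.factorial := by
      intro h hh
      rw [Finset.sum_comm, Finset.mul_sum]
      have h4 : ∀ d ∈ D, n.choose 3 * ∑ σ : Equiv.Perm (Fin n),
          (if h.image σ = d then 1 else 0) = n.factorial := by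
        intro d hd
        rw [← Finset.card_filter]
        exact OV1_sum (hH hh) (hD hd)
      rw [Finset.sum_congr rfl h4, Finset.sum_const, smul_eq_mul]
    rw [Finset.sum_congr rfl h3, Finset.sum_const, smul_eq_mul, mul_assoc]
  have h5 : ∑ σ : Equiv.Perm (Fin n), n.choose 3 * (D ∩ img σ H).card <
      ∑ _σ : Equiv.Perm (Fin n), D.card * H.card :=
    Finset.sum_lt_sum_of_nonempty Finset.univ_nonempty fun σ _ => hcon σ
  rw [← Finset.mul_sum, h1, Finset.sum_const, Finset.card_univ, Fintype.card_perm,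
    Fintype.card_fin, smul_eq_mul] at h5
  have h6 : H.card * D.card * n.factorial = n.factorial * (D.card * H.card) := by ring
  rw [h6] at h5
  exact lt_irrefl _ h5

end H773U
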