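import Pool.Agent.H773R2.UD.Defs

/-! OV2: overlay of `k` hypergraphs. -/

namespace H773U

open Finset

theorem OV2_img_img {n : ℕ} (s t : Equiv.Perm (Fin n)) (E : ES n) :
    img s (img t E) = img (s * t) E := by
  unfold img
  rw [image_image]
  congr 1
  funext x
  simp only [Function.comp]
  rw [image_image]
  rfl

theorem OV2_img_one {n : ℕ} (E : ES n) : img 1 E = E := by
  unfold img
  have : (fun s : Finset (Fin n) => s.image (1 : Equiv.Perm (Fin n))) = id := by
    funext s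
    simp
  rw [this, image_id]

theorem OV2_img_mono {n : ℕ} (s : Equiv.Perm (Fin n)) {E F : ES n} (h : E ⊆ F) :
    img s E ⊆ img s F := image_subset_image h

theorem OV2_img_card {n : ℕ} (s : Equiv.Perm (Fin n)) (E : ES n) : (img s E).card = E.card := by
  unfold img
  exact card_image_of_injective _ (image_injective s.injective)

theorem OV2_img_K3 {n : ℕ} (s : Equiv.Perm (Fin n)) {E : ES n} (h : ∀ x ∈ E, x.card = 3) :
    img s E ⊆ K3 n := by
  intro y hy
  unfold img at hy
  obtain ⟨x, hx, rfl⟩ := mem_image.1 hy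
  unfold K3
  rw [mem_powersetCard]
  exact ⟨subset_univ _, by rw [card_image_of_injective _ s.injective]; exact h x hx⟩

theorem OV2_ind (h1 : S_OV1) (n e : ℕ) : ∀ (k : ℕ) (H : Fin (k + 1) → ES n),
    (∀ i, ∀ s ∈ H i, s.card = 3) → (∀ i, (H i).card = e) →
    ∃ (s : Fin (k + 1) → Equiv.Perm (Fin n)) (C : ES n), (∀ i, C ⊆ img (s i) (H i)) ∧
      e ^ (k + 1) ≤ (n.choose 3) ^ k * C.card := by
  intro k
  induction k with
  | zero =>
    intro H hH he
    refine ⟨fun _ => 1, H 0, fun i => ?_, ?_⟩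
    · have hi : i = 0 := Fin.ext (by omega)
      rw [OV2_img_one, hi]
    · simp [he 0]
  | succ k ih =>
    intro H hH he
    obtain ⟨s, C, hs, hC⟩ := ih (fun i => H i.castSucc) (fun i => hH _) (fun i => he _)
    have hCK : C ⊆ K3 n := (hs 0).trans (OV2_img_K3 _ (hH _))
    have hHK : H (Fin.last (k + 1)) ⊆ K3 n := by
      have := OV2_img_K3 1 (hH (Fin.last (k + 1)))
      rwa [OV2_img_one] at this
    obtain ⟨σ, hσ⟩ := h1 n C (H (Fin.last (k + 1))) hCK hHK
    refine ⟨Fin.snoc s σ, C ∩ img σ (H (Fin.last (k + 1))), fun i => ?_, ?_⟩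
    · refine Fin.lastCases ?_ (fun j => ?_) i
      · rw [Fin.snoc_last]
        exact inter_subset_right
      · rw [Fin.snoc_castSucc]
        exact inter_subset_left.trans (hs j)
    · rw [he] at hσ
      calc e ^ (k + 1 + 1) = e ^ (k + 1) * e := pow_succ _ _
        _ ≤ ((n.choose 3) ^ k * C.card) * e := Nat.mul_le_mul_right _ hC
        _ = (n.choose 3) ^ k * (C.card * e) := by ring
        _ ≤ (n.choose 3) ^ k * (n.choose 3 * (C ∩ img σ (H (Fin.last (k + 1)))).card) :=
            Nat.mul_le_mul_left _ hσ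
        _ = _ := by ring

theorem OV2 (h1 : S_OV1) (hI : S_ISO1) : S_OV2 := by
  intro n k H e hk hH he
  obtain ⟨k, rfl⟩ : ∃ j, k = j + 1 := ⟨k - 1, by omega⟩
  obtain ⟨s, C, hs, hC⟩ := OV2_ind h1 n e k H hH he
  refine ⟨fun i => img (s i)⁻¹ C, ⟨?_, ?_, ?_⟩, ?_⟩
  · intro i
    have h2 := OV2_img_mono (s i)⁻¹ (hs i)
    rwa [OV2_img_img, inv_mul_cancel, OV2_img_one] at h2
  · intro i i'
    have h2 : img (s i')⁻¹ C = img ((s i')⁻¹ * s i) (img (s i)⁻¹ C) := by
      rw [OV2_img_img, mul_inv_cancel_right]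
    show Iso (img (s i)⁻¹ C) (img (s i')⁻¹ C)
    rw [h2]
    exact hI n _ _
  · intro i i'
    show (img (s i)⁻¹ C).card = (img (s i')⁻¹ C).card
    rw [OV2_img_card, OV2_img_card]
  · intro i
    show e ^ (k + 1) ≤ (n.choose 3) ^ (k + 1 - 1) * (img (s i)⁻¹ C).card
    rw [OV2_img_card]
    exact hC

end H773U
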