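import Pool.Agent.H773R2.UD.Defs

set_option autoImplicit false

namespace H773U

theorem OVA : S_OVA := by
  intro n k e d hn hk he h1 h2
  obtain ⟨m, rfl⟩ : ∃ m, k = m + 1 := ⟨k - 1, by omega⟩
  rw [Nat.add_sub_cancel] at h2
  have hN : (0 : ℝ) < n := by
    have : 0 < n := by omega
    exact_mod_cast this
  set g : ℝ := 2 - 4 / (3 * ((m + 1 : ℕ) : ℝ) - 1) with hg
  have hm : (2 : ℝ) ≤ m := by
    have : 2 ≤ m := by omega
    exact_mod_cast this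
  have hden : (0 : ℝ) < 3 * ((m + 1 : ℕ) : ℝ) - 1 := by
    push_cast; linarith
  have he1 : (1 : ℝ) ≤ e := by exact_mod_cast he
  have hpow : ((n : ℝ) ^ (3 * g / 2)) ^ m ≤ (e : ℝ) ^ m :=
    pow_le_pow_left₀ (by positivity) h1 m
  have hch : ((n.choose 3 : ℕ) : ℝ) ≤ (n : ℝ) ^ 3 := by
    have := Nat.choose_le_pow n 3
    exact_mod_cast this
  have h3 : (e : ℝ) * ((n : ℝ) ^ (3 * g / 2)) ^ m ≤ ((n : ℝ) ^ 3) ^ m * d := by
    calc (e : ℝ) * ((n : ℝ) ^ (3 * g / 2)) ^ m ≤ (e : ℝ) * (e : ℝ) ^ m :=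
          mul_le_mul_of_nonneg_left hpow (by linarith)
      _ = (e : ℝ) ^ (m + 1) := by ring
      _ ≤ ((n.choose 3 : ℕ) : ℝ) ^ m * d := by exact_mod_cast h2
      _ ≤ ((n : ℝ) ^ 3) ^ m * d := by
          apply mul_le_mul_of_nonneg_right _ (Nat.cast_nonneg d)
          exact pow_le_pow_left₀ (Nat.cast_nonneg _) hch m
  have h4 : ((n : ℝ) ^ 3) ^ m = (n : ℝ) ^ g * ((n : ℝ) ^ (3 * g / 2)) ^ m := by
    rw [← Real.rpow_natCast ((n : ℝ) ^ (3 * g / 2)) m, ← Real.rpow_mul hN.le,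
      ← Real.rpow_add hN, ← pow_mul, ← Real.rpow_natCast]
    congr 1
    rw [hg]
    push_cast
    push_cast at hden
    field_simp
    ring
  rw [h4] at h3
  have hpos : 0 < ((n : ℝ) ^ (3 * g / 2)) ^ m := by positivity
  have h5 : (e : ℝ) * ((n : ℝ) ^ (3 * g / 2)) ^ m ≤
      ((n : ℝ) ^ g * d) * ((n : ℝ) ^ (3 * g / 2)) ^ m := by
    calc _ ≤ _ := h3
      _ = _ := by ring
  exact le_of_mul_le_mul_right h5 hpos

end H773U
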