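import Pool.Agent.H773R2.UD.Defs

/-! Formalised by helper708. -/

set_option linter.unusedVariables false

namespace H773U

/-- the real inequalities of case A -/
theorem PAR_A (n e l X m F u : ℝ) (hn : 2 ≤ n) (he : 1 ≤ e) (hl : 1 ≤ l) (hX : 1 ≤ X)
    (hen : e ≤ n ^ 3) (hm : 0 < m) (hm2 : 9216 * l ^ 2 * n * m ^ 2 = e)
    (hF : 18432 * l ^ 2 * X * F = e) (hF2 : 2 < F) (hFm : F ≤ m) (hu1 : u ≤ m) (hu2 : m < u + 1)
    (hu0 : 0 ≤ u) :
    9216 * l ^ 2 * (1 * u) ^ 2 * n ≤ e ∧ 36864 * l ^ 2 * (1 * u * 1) ^ 3 ≤ e ∧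
      e ≤ 36864 * l ^ 2 * X * (1 * u * 1) := by
  have hl2 : 1 ≤ l ^ 2 := one_le_pow₀ hl
  have hn0 : 0 < n := by linarith
  have hmn : 4 * m ≤ n := by
    by_contra hlt
    push Not at hlt
    have h1 : n ^ 2 < 16 * m ^ 2 := by nlinarith
    have h2 : n ^ 3 < 16 * n * m ^ 2 := by nlinarith
    have h3 : 16 * n * m ^ 2 ≤ 9216 * l ^ 2 * n * m ^ 2 := by
      have : 0 ≤ n * m ^ 2 := by positivity
      nlinarith
    linarith
  have hum : u ^ 2 ≤ m ^ 2 := by nlinarith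
  have hum3 : u ^ 3 ≤ m ^ 3 := pow_le_pow_left₀ hu0 hu1 3
  refine ⟨?_, ?_, ?_⟩
  · have : 0 ≤ l ^ 2 * n := by positivity
    nlinarith
  · have h1 : 36864 * l ^ 2 * (1 * u * 1) ^ 3 ≤ 36864 * l ^ 2 * m ^ 3 := by
      have : 0 ≤ l ^ 2 := by positivity
      nlinarith
    have h2 : 36864 * l ^ 2 * m ^ 3 ≤ 9216 * l ^ 2 * n * m ^ 2 := by
      have : 0 ≤ l ^ 2 * m ^ 2 := by positivity
      nlinarith
    linarith
  · have h1 : 18432 * l ^ 2 * X * F ≤ 18432 * l ^ 2 * X * (2 * u) := by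
      have : 0 ≤ l ^ 2 * X := by positivity
      have h3 : F ≤ 2 * u := by linarith
      nlinarith
    linarith

/-- the real inequalities of case B -/
theorem PAR_B (n e l X m F t u : ℝ) (hn : 2 ≤ n) (he : 1 ≤ e) (hl : 1 ≤ l) (hX : 1 ≤ X)
    (hX3 : n ^ 3 ≤ X ^ 2) (heX : e ^ 2 ≤ X ^ 3) (hm : 0 < m)
    (hm2 : 9216 * l ^ 2 * n * m ^ 2 = e)
    (hF : 18432 * l ^ 2 * X * F = e) (hF2 : 2 < F) (hFm : m < F) (ht : 1 ≤ t)
    (ht1 : F ≤ t * m) (ht2 : t * m ≤ F + m) (hu0 : 0 ≤ u)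
    (hu1 : u * t ≤ m) (hu2 : m ≤ 2 * (u * t)) :
    72 * l * (t - 1) * n ^ 2 ≤ e ∧ 9216 * l ^ 2 * (t * u) ^ 2 * n ≤ e ∧
      36864 * l ^ 2 * (t * u * t) ^ 3 ≤ e ∧ e ≤ 36864 * l ^ 2 * X * (t * u * t) := by
  have hl2 : 1 ≤ l ^ 2 := one_le_pow₀ hl
  have hn0 : 0 < n := by linarith
  have hl0 : 0 < l := by linarith
  have hX0 : 0 < X := by linarith
  have hF0 : 0 < F := by linarith
  have he0 : 0 < e := by linarith
  have ht0 : 0 < t := by linarith
  refine ⟨?_, ?_, ?_, ?_⟩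
  · -- `(t - 1) m ≤ F`
    have h1 : (t - 1) * m ≤ F := by linarith
    -- lower bound for `e`
    have h2 : 36864 * l ^ 2 * X ^ 2 ≤ e * n := by
      have h3 : m ^ 2 ≤ F ^ 2 := by nlinarith
      -- `e^2 = 18432^2 l^4 X^2 F^2 ≥ 18432^2 l^4 X^2 m^2`, `9216 l^2 n m^2 = e`
      have h4 : e ^ 2 = 18432 ^ 2 * l ^ 4 * X ^ 2 * F ^ 2 := by
        rw [← hF]; ring
      have h5 : 18432 ^ 2 * l ^ 4 * X ^ 2 * m ^ 2 ≤ e ^ 2 := by
        rw [h4]
        exact mul_le_mul_of_nonneg_left h3 (by positivity)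
      have h6 : 36864 * l ^ 2 * X ^ 2 * e ≤ e * n * e := by
        calc 36864 * l ^ 2 * X ^ 2 * e
            = (18432 ^ 2 * l ^ 4 * X ^ 2 * m ^ 2) * n := by
              rw [← hm2]; ring
          _ ≤ e ^ 2 * n := mul_le_mul_of_nonneg_right h5 hn0.le
          _ = e * n * e := by ring
      exact le_of_mul_le_mul_right h6 he0
    have h7 : 36864 * n ^ 5 ≤ e * X ^ 2 := by
      have h8 : (n ^ 3) ^ 2 ≤ (X ^ 2) ^ 2 := pow_le_pow_left₀ (by positivity) hX3 2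
      have h9 : 36864 * X ^ 2 * X ^ 2 ≤ e * n * X ^ 2 := by
        refine mul_le_mul_of_nonneg_right ?_ (by positivity)
        have : X ^ 2 ≤ l ^ 2 * X ^ 2 := by nlinarith [sq_nonneg X]
        linarith
      have h10 : 36864 * n ^ 5 * n ≤ e * X ^ 2 * n := by nlinarith
      exact le_of_mul_le_mul_right h10 hn0
    -- squares
    have h11 : (72 * l * n ^ 2 * F) ^ 2 ≤ (e * m) ^ 2 := by
      have h12 : (18432 * l ^ 2 * X * F) ^ 2 * (n ^ 4 * 5184 * 9216 * n) ≤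
          (e * m) ^ 2 * (18432 ^ 2 * l ^ 2 * X ^ 2 * 9216 * n) := by
        have h13 : (e * m) ^ 2 * (18432 ^ 2 * l ^ 2 * X ^ 2 * 9216 * n) =
            e ^ 3 * (18432 ^ 2 * X ^ 2) := by
          calc (e * m) ^ 2 * (18432 ^ 2 * l ^ 2 * X ^ 2 * 9216 * n)
              = e ^ 2 * (9216 * l ^ 2 * n * m ^ 2) * (18432 ^ 2 * X ^ 2) := by ring
            _ = _ := by rw [hm2]; ring
        rw [h13, hF]
        have h14 : e ^ 2 * (36864 * n ^ 5) ≤ e ^ 2 * (e * X ^ 2) :=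
          mul_le_mul_of_nonneg_left h7 (by positivity)
        have h15 : 0 ≤ e ^ 2 * n ^ 5 := by positivity
        have h16 : 0 ≤ e ^ 2 * (e * X ^ 2) := by positivity
        nlinarith
      have h17 : (18432 * l ^ 2 * X * F) ^ 2 * (n ^ 4 * 5184 * 9216 * n) =
          (72 * l * n ^ 2 * F) ^ 2 * (18432 ^ 2 * l ^ 2 * X ^ 2 * 9216 * n) := by ring
      rw [h17] at h12
      exact le_of_mul_le_mul_right h12 (by positivity)
    have h18 : 72 * l * n ^ 2 * F ≤ e * m := by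
      exact (pow_le_pow_iff_left₀ (by positivity) (by positivity) (by norm_num)).mp h11
    have h19 : 72 * l * (t - 1) * n ^ 2 * m ≤ e * m := by
      have h20 : 72 * l * n ^ 2 * ((t - 1) * m) ≤ 72 * l * n ^ 2 * F :=
        mul_le_mul_of_nonneg_left h1 (by positivity)
      nlinarith
    exact le_of_mul_le_mul_right h19 hm
  · have h1 : (t * u) ^ 2 ≤ m ^ 2 := pow_le_pow_left₀ (by positivity) (by linarith) 2
    have h2 : 9216 * l ^ 2 * (t * u) ^ 2 * n ≤ 9216 * l ^ 2 * m ^ 2 * n := by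
      have : 0 ≤ l ^ 2 * n := by positivity
      nlinarith
    linarith
  · have h1 : t * u * t ≤ 2 * F := by nlinarith
    have h2 : (t * u * t) ^ 3 ≤ (2 * F) ^ 3 := pow_le_pow_left₀ (by positivity) h1 3
    have h3 : 36864 * l ^ 2 * (2 * F) ^ 3 ≤ e := by
      have h4 : e ^ 3 = 18432 ^ 3 * l ^ 6 * X ^ 3 * F ^ 3 := by rw [← hF]; ring
      have h5 : (36864 * l ^ 2 * (2 * F) ^ 3) * (18432 ^ 3 * l ^ 4 * X ^ 3) =
          294912 * e ^ 3 := by
        rw [h4]; ring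
      have h6 : 294912 * e ^ 3 ≤ e * (18432 ^ 3 * l ^ 4 * X ^ 3) := by
        have h7 : e * (e ^ 2) ≤ e * X ^ 3 := mul_le_mul_of_nonneg_left heX he0.le
        have h8 : 1 ≤ l ^ 4 := one_le_pow₀ hl
        have h9 : e * X ^ 3 ≤ e * X ^ 3 * l ^ 4 := le_mul_of_one_le_right (by positivity) h8
        nlinarith
      rw [← h5] at h6
      exact le_of_mul_le_mul_right h6 (by positivity)
    have h4 : 36864 * l ^ 2 * (t * u * t) ^ 3 ≤ 36864 * l ^ 2 * (2 * F) ^ 3 :=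
      mul_le_mul_of_nonneg_left h2 (by positivity)
    linarith
  · have h1 : F ≤ 2 * (t * u * t) := by nlinarith
    have h2 : 18432 * l ^ 2 * X * F ≤ 18432 * l ^ 2 * X * (2 * (t * u * t)) :=
      mul_le_mul_of_nonneg_left h1 (by positivity)
    linarith

theorem PAR : S_PAR := by
  intro n e L β hn he hL hβ hβ' hen heX
  by_cases hleft : (e : ℝ) ≤ 36864 * (L : ℝ) ^ 4 * (n : ℝ) ^ β
  · exact Or.inl hleft
  right
  push Not at hleft
  have hn' : (2 : ℝ) ≤ n := by exact_mod_cast hn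
  have he' : (1 : ℝ) ≤ e := by exact_mod_cast he
  have hL' : (1 : ℝ) ≤ L := by exact_mod_cast hL
  have hn0 : (0 : ℝ) < n := by linarith
  have hn1 : (1 : ℝ) ≤ n := by linarith
  have he0 : (0 : ℝ) < e := by linarith
  have hen' : (e : ℝ) ≤ (n : ℝ) ^ 3 := by exact_mod_cast hen
  set X : ℝ := (n : ℝ) ^ β with hXdef
  have hX0 : 0 < X := Real.rpow_pos_of_pos hn0 _
  have hX1 : 1 ≤ X := Real.one_le_rpow hn1 (by linarith)
  have hX3 : (n : ℝ) ^ 3 ≤ X ^ 2 := by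
    have h1 : X ^ 2 = (n : ℝ) ^ (β * 2) := by
      rw [hXdef, ← Real.rpow_natCast, ← Real.rpow_mul hn0.le]
      norm_num
    rw [h1, ← Real.rpow_natCast]
    exact Real.rpow_le_rpow_of_exponent_le hn1 (by push_cast; linarith)
  have heX3 : (e : ℝ) ^ 2 ≤ X ^ 3 := by
    have h1 : X ^ 3 = ((n : ℝ) ^ (3 * β / 2)) ^ 2 := by
      rw [hXdef, ← Real.rpow_natCast, ← Real.rpow_natCast, ← Real.rpow_mul hn0.le,
        ← Real.rpow_mul hn0.le]
      congr 1
      push_cast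
      ring
    rw [h1]
    exact pow_le_pow_left₀ he0.le heX 2
  set l : ℝ := (L : ℝ) ^ 2 with hl
  have hl1 : 1 ≤ l := one_le_pow₀ hL'
  have hl0 : 0 < l := by linarith
  have hl4 : (L : ℝ) ^ 4 = l ^ 2 := by rw [hl]; ring
  rw [hl4] at hleft
  have hXn : (n : ℝ) ≤ X := by
    by_contra hlt
    push Not at hlt
    have h1 : X ^ 2 < (n : ℝ) ^ 2 := by nlinarith
    have h2 : (n : ℝ) ^ 2 ≤ (n : ℝ) ^ 3 := pow_le_pow_right₀ hn1 (by norm_num)
    linarith
  obtain ⟨m, hm0, hm2⟩ : ∃ m : ℝ, 0 < m ∧ 9216 * l ^ 2 * n * m ^ 2 = e := by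
    refine ⟨Real.sqrt (e / (9216 * l ^ 2 * n)), Real.sqrt_pos.mpr (by positivity), ?_⟩
    rw [Real.sq_sqrt (by positivity)]
    field_simp
  obtain ⟨F, hF⟩ : ∃ F : ℝ, 18432 * l ^ 2 * X * F = e := by
    refine ⟨e / (18432 * l ^ 2 * X), ?_⟩
    field_simp
  have hF2 : 2 < F := by
    by_contra hlt
    push Not at hlt
    have : 18432 * l ^ 2 * X * F ≤ 18432 * l ^ 2 * X * 2 :=
      mul_le_mul_of_nonneg_left hlt (by positivity)
    linarith
  rcases le_or_gt F m with hFm | hFm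
  · have hm2' : 2 < m := lt_of_lt_of_le hF2 hFm
    refine ⟨1, ⌊m⌋₊, le_refl _, ?_, ?_, ?_, ?_, ?_⟩
    · exact Nat.le_floor (by push_cast; linarith)
    · simp
    all_goals
      obtain ⟨h1, h2, h3⟩ := PAR_A n e l X m F (⌊m⌋₊ : ℝ) hn' he' hl1 hX1 hen' hm0 hm2 hF hF2 hFm
        (Nat.floor_le hm0.le) (Nat.lt_floor_add_one m) (Nat.cast_nonneg _)
    · rw [← hl4] at h1
      exact_mod_cast h1
    · rw [← hl4] at h2
      exact_mod_cast h2
    · rw [← hl4] at h3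
      push_cast
      exact h3
  · have hF0 : 0 < F := by linarith
    set t : ℕ := ⌈F / m⌉₊ with ht
    have hFm1 : 1 < F / m := by rw [lt_div_iff₀ hm0]; linarith
    have ht1 : F / m ≤ t := Nat.le_ceil _
    have ht2 : (t : ℝ) < F / m + 1 := Nat.ceil_lt_add_one (by positivity)
    have ht1' : F ≤ t * m := by rwa [div_le_iff₀ hm0] at ht1
    have ht2' : t * m ≤ F + m := by
      have : (t : ℝ) * m ≤ (F / m + 1) * m := mul_le_mul_of_nonneg_right ht2.le hm0.le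
      rw [add_mul, div_mul_cancel₀ _ hm0.ne', one_mul] at this
      exact this
    have htR : (1 : ℝ) ≤ t := by linarith
    have ht0 : (0 : ℝ) < t := by linarith
    have htN : 1 ≤ t := by exact_mod_cast htR
    -- `m / t ≥ 1`
    have hmt : 1 ≤ m / t := by
      rw [le_div_iff₀ ht0, one_mul]
      -- `t m ≤ 2F`, `m^2 ≥ 2F X/n ≥ 2F`
      have h1 : (t : ℝ) * m ≤ 2 * F := by linarith
      have h2 : 2 * F ≤ m ^ 2 := by
        have h3 : (9216 * l ^ 2 * n) * (2 * F) ≤ (9216 * l ^ 2 * n) * m ^ 2 := by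
          rw [hm2, ← hF]
          have : 0 ≤ l ^ 2 * F := by positivity
          nlinarith
        exact le_of_mul_le_mul_left h3 (by positivity)
      have h4 : (t : ℝ) * m ≤ m * m := by nlinarith
      exact le_of_mul_le_mul_right h4 hm0
    set u : ℕ := ⌊m / t⌋₊ with hu
    have hu1 : (u : ℝ) ≤ m / t := Nat.floor_le (by positivity)
    have hu2 : m / t < u + 1 := Nat.lt_floor_add_one _
    have huN : 1 ≤ u := Nat.le_floor (by push_cast; exact hmt)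
    have huR : (1 : ℝ) ≤ u := by exact_mod_cast huN
    have hu1' : (u : ℝ) * t ≤ m := by rwa [le_div_iff₀ ht0] at hu1
    have hu2' : m ≤ 2 * ((u : ℝ) * t) := by
      have : m < (u + 1) * t := by rwa [div_lt_iff₀ ht0] at hu2
      nlinarith
    obtain ⟨h1, h2, h3, h4⟩ := PAR_B n e l X m F t u hn' he' hl1 hX1 hX3 heX3 hm0 hm2 hF hF2 hFm
      htR ht1' ht2' (Nat.cast_nonneg _) hu1' hu2'
    refine ⟨t, u, htN, huN, ?_, ?_, ?_, ?_⟩
    · have : ((72 * L ^ 2 * (t - 1) * n ^ 2 : ℕ) : ℝ) ≤ e := by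
        push_cast [Nat.cast_sub htN]
        exact h1
      exact_mod_cast this
    · rw [← hl4] at h2
      exact_mod_cast h2
    · rw [← hl4] at h3
      exact_mod_cast h3
    · rw [← hl4] at h4
      push_cast
      exact h4

end H773U
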