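import Pool.Agent.H773R2.UD.Defs

namespace H773U

open Finset

theorem RES (hUP : S_UP) (hLO : S_LO) : S_RES := by
  constructor
  · refine ⟨36864 * 5 ^ 25, ?_⟩
    intro k n hk hn
    exact (hUP k n hk hn).2
  · intro k hk
    obtain ⟨c, hc, h⟩ := hLO k (by omega)
    refine ⟨c, hc, ?_⟩
    intro n hn
    exact h n hn (hUP k n hk (by omega)).1

end H773U
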