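import Pool.Agent.H773R2.UD.Defs

/-! Task RG1 of helper773 (helper814): regularisation by pigeonhole. -/

set_option linter.unusedVariables false

namespace H773U

open Finset

/-- first statistic -/
def RG1_k1 {n : ℕ} (S : Tr n) (p : Fin 3 → Fin n) (a : Fin 3) : ℕ :=
  Nat.log 2 ((S.filter (fun q => q a = p a)).card)

/-- second statistic -/
def RG1_k2 {n : ℕ} (S : Tr n) (p : Fin 3 → Fin n) (c : Fin 3) : ℕ :=
  Nat.log 2 ((S.filter (fun q => ∀ d, d ≠ c → q d = p d)).card)

/-- all six statistics -/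
def RG1_key {n : ℕ} (S : Tr n) (p : Fin 3 → Fin n) : Fin 3 ⊕ Fin 3 → ℕ :=
  Sum.elim (RG1_k1 S p) (RG1_k2 S p)

lemma RG1_card1 {n : ℕ} (S : Tr n) (p : Fin 3 → Fin n) (a : Fin 3) :
    (S.filter (fun q => q a = p a)).card ≤ n ^ 2 := by
  have h : (S.filter (fun q => q a = p a)).card ≤
      (univ : Finset (Fin n × Fin n)).card := by
    apply card_le_card_of_injOn (fun q => (q (a + 1), q (a + 2)))
    · intro q _; simp
    · intro q hq q' hq' h
      rw [mem_coe, mem_filter] at hq hq'
      simp only [Prod.mk.injEq] at h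
      funext d
      have key : ∀ a d : Fin 3, d = a ∨ d = a + 1 ∨ d = a + 2 := by decide
      have hd := key a d
      rcases hd with rfl | rfl | rfl
      · rw [hq.2, hq'.2]
      · exact h.1
      · exact h.2
  rw [card_univ, Fintype.card_prod, Fintype.card_fin] at h
  rw [pow_two]; exact h

lemma RG1_lt1 {n : ℕ} (S : Tr n) (p : Fin 3 → Fin n) (a : Fin 3) : RG1_k1 S p a < BB n :=
  Nat.lt_succ_of_le (Nat.log_mono_right (RG1_card1 S p a))

lemma RG1_lt2 {n : ℕ} (S : Tr n) (p : Fin 3 → Fin n) (c : Fin 3) : RG1_k2 S p c < BB n := by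
  refine Nat.lt_succ_of_le (Nat.log_mono_right ((card_le_card ?_).trans (RG1_card1 S p (c + 1))))
  intro q hq
  rw [mem_filter] at hq ⊢
  have key : ∀ c : Fin 3, c + 1 ≠ c := by decide
  exact ⟨hq.1, hq.2 _ (key c)⟩

theorem RG1 (h : S_RG0) : S_RG1 := by
  intro n S hn hS
  set t : Finset (Fin 3 ⊕ Fin 3 → ℕ) := Fintype.piFinset (fun _ => range (BB n)) with ht
  have htc : t.card = Lam n := by
    rw [ht, Fintype.card_piFinset]
    simp [Lam]
  have hmaps : ∀ p ∈ S, RG1_key S p ∈ t := by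
    intro p _
    rw [ht, Fintype.mem_piFinset]
    rintro (a | a)
    · rw [mem_range]; exact RG1_lt1 S p a
    · rw [mem_range]; exact RG1_lt2 S p a
  have htne : t.Nonempty := by
    obtain ⟨p, hp⟩ := hS
    exact ⟨_, hmaps p hp⟩
  have hsum : S.card = ∑ y ∈ t, (S.filter (fun p => RG1_key S p = y)).card :=
    card_eq_sum_card_fiberwise hmaps
  obtain ⟨y, hy, hle⟩ : ∃ y ∈ t, S.card ≤ Lam n * (S.filter (fun p => RG1_key S p = y)).card := by
    apply exists_le_of_sum_le htne
    rw [sum_const, ← mul_sum, ← hsum, htc, smul_eq_mul]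
  set S1 := S.filter (fun p => RG1_key S p = y) with hS1
  have hsub : S1 ⊆ S := filter_subset _ _
  have hne : S1.Nonempty := by
    rw [← card_pos]
    have h1 := hS.card_pos
    by_contra h0
    have h0' : S1.card = 0 := by omega
    rw [h0', mul_zero] at hle
    omega
  have hk1 : ∀ a, ∀ p ∈ S1, Nat.log 2 ((S.filter (fun q => q a = p a)).card) = y (.inl a) := by
    intro a p hp
    rw [hS1, mem_filter] at hp
    rw [← hp.2]; rfl
  have hk2 : ∀ a b : Fin 3, a ≠ b → ∀ p ∈ S1,
      Nat.log 2 ((S.filter (fun q => (q a, q b) = (p a, p b))).card) = y (.inr (-(a + b))) := by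
    intro a b hab p hp
    rw [hS1, mem_filter] at hp
    rw [← hp.2]
    show _ = RG1_k2 S p (-(a + b))
    unfold RG1_k2
    congr 2
    ext q
    rw [mem_filter, mem_filter, Prod.mk.injEq]
    have key0 : ∀ a b : Fin 3, a ≠ b → ∀ d, d ≠ -(a + b) ↔ (d = a ∨ d = b) := by decide
    have key := key0 a b hab
    constructor
    · rintro ⟨h1, h2, h3⟩
      refine ⟨h1, fun d hd => ?_⟩
      rcases (key d).1 hd with rfl | rfl
      · exact h2
      · exact h3
    · rintro ⟨h1, h2⟩
      exact ⟨h1, h2 a ((key a).2 (Or.inl rfl)), h2 b ((key b).2 (Or.inr rfl))⟩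
  refine ⟨S1, fun a => 2 ^ (y (.inl a) + 1), fun a b => 2 ^ (y (.inr (-(a + b))) + 1), hsub, hne,
    hle, ?_, ?_, ?_, ?_⟩
  · intro a v
    have := (h _ _ inferInstance inferInstance S S1 (fun p => p a) (y (.inl a)) hsub (hk1 a)).1 v
    exact this
  · intro a
    have := (h _ _ inferInstance inferInstance S S1 (fun p => p a) (y (.inl a)) hsub (hk1 a)).2
    calc 2 ^ (y (.inl a) + 1) * nn S1 a ≤ 2 * S.card := this
      _ ≤ 2 * (Lam n * S1.card) := Nat.mul_le_mul_left _ hle
      _ = 2 * Lam n * S1.card := by ring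
  · intro a b v v' hab
    have := (h _ _ inferInstance inferInstance S S1 (fun p => (p a, p b)) (y (.inr (-(a + b)))) hsub
      (hk2 a b hab)).1 (v, v')
    refine le_trans (le_of_eq ?_) this
    unfold cg
    congr 1
    ext q
    simp [Prod.mk.injEq]
  · intro a b hab
    have := (h _ _ inferInstance inferInstance S S1 (fun p => (p a, p b)) (y (.inr (-(a + b)))) hsub
      (hk2 a b hab)).2
    calc 2 ^ (y (.inr (-(a + b))) + 1) * mm S1 a b ≤ 2 * S.card := this
      _ ≤ 2 * (Lam n * S1.card) := Nat.mul_le_mul_left _ hle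
      _ = 2 * Lam n * S1.card := by ring

end H773U
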