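import Pool.Agent.H773R2.UD.Defs

/-! TRI: tripartition. -/

namespace H773U

open Finset

theorem TRI_dec : ∀ i j k : Fin 3,
    (∑ a : Fin 3, ∑ b : Fin 3, if i ≠ j + a ∧ i ≠ k + b ∧ j + a ≠ k + b then 1 else 0) = 2 := by
  decide

theorem TRI_dec2 : ∀ i j k : Fin 3, i ≠ j ∧ i ≠ k ∧ j ≠ k → ∀ a, a = i ∨ a = j ∨ a = k := by
  decide

theorem TRI_count {n : ℕ} (x y z : Fin n) (hxy : x ≠ y) (hxz : x ≠ z) (hyz : y ≠ z) :
    9 * (univ.filter (fun f : Fin n → Fin 3 => f x ≠ f y ∧ f x ≠ f z ∧ f y ≠ f z)).card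
      = 2 * 3 ^ n := by
  have h1 : ∀ a b : Fin 3,
      ∑ f : Fin n → Fin 3, (if f x ≠ f y + a ∧ f x ≠ f z + b ∧ f y + a ≠ f z + b then 1 else 0) =
      (univ.filter (fun f : Fin n → Fin 3 => f x ≠ f y ∧ f x ≠ f z ∧ f y ≠ f z)).card := by
    intro a b
    rw [card_filter]
    rw [← Equiv.sum_comp (Equiv.addRight (Pi.single y a + Pi.single z b : Fin n → Fin 3))
      (fun f : Fin n → Fin 3 => if f x ≠ f y ∧ f x ≠ f z ∧ f y ≠ f z then 1 else 0)]
    refine Finset.sum_congr rfl fun f _ => ?_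
    have e1 : (f + (Pi.single y a + Pi.single z b) : Fin n → Fin 3) x = f x := by
      simp [Pi.single_apply, hxy, hxz]
    have e2 : (f + (Pi.single y a + Pi.single z b) : Fin n → Fin 3) y = f y + a := by
      simp [Pi.single_apply, hyz]
    have e3 : (f + (Pi.single y a + Pi.single z b) : Fin n → Fin 3) z = f z + b := by
      simp [Pi.single_apply, hyz.symm]
    simp only [Equiv.coe_addRight, e1, e2, e3]
  have h2 : ∑ a : Fin 3, ∑ b : Fin 3,
      ∑ f : Fin n → Fin 3, (if f x ≠ f y + a ∧ f x ≠ f z + b ∧ f y + a ≠ f z + b then 1 else 0) =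
      2 * 3 ^ n := by
    have h3 : ∑ a : Fin 3, ∑ b : Fin 3,
        ∑ f : Fin n → Fin 3, (if f x ≠ f y + a ∧ f x ≠ f z + b ∧ f y + a ≠ f z + b then 1 else 0) =
        ∑ f : Fin n → Fin 3, ∑ a : Fin 3, ∑ b : Fin 3,
          (if f x ≠ f y + a ∧ f x ≠ f z + b ∧ f y + a ≠ f z + b then 1 else 0) := by
      rw [Finset.sum_congr rfl fun a _ => Finset.sum_comm]
      rw [Finset.sum_comm]
    rw [h3, Finset.sum_congr rfl fun f _ => TRI_dec (f x) (f y) (f z)]
    simp [mul_comm]
  rw [← h2, Finset.sum_congr rfl fun a _ => Finset.sum_congr rfl fun b _ => h1 a b]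
  simp
  ring

theorem TRI : S_TRI := by
  intro n H hH
  -- a good colouring
  have hex : ∃ f : Fin n → Fin 3,
      2 * H.card ≤ 9 * (H.filter (fun s => ∀ a, ∃ v ∈ s, f v = a)).card := by
    by_contra hcon
    push Not at hcon
    have h1 : ∑ f : Fin n → Fin 3, 9 * (H.filter (fun s => ∀ a, ∃ v ∈ s, f v = a)).card <
        ∑ _f : Fin n → Fin 3, 2 * H.card :=
      Finset.sum_lt_sum_of_nonempty univ_nonempty fun f _ => hcon f
    have h2 : ∑ f : Fin n → Fin 3, 9 * (H.filter (fun s => ∀ a, ∃ v ∈ s, f v = a)).card =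
        ∑ s ∈ H, 9 * (univ.filter (fun f : Fin n → Fin 3 => ∀ a, ∃ v ∈ s, f v = a)).card := by
      simp only [card_filter, Finset.mul_sum]
      rw [Finset.sum_comm]
    have h3 : ∑ s ∈ H, 2 * 3 ^ n ≤
        ∑ s ∈ H, 9 * (univ.filter (fun f : Fin n → Fin 3 => ∀ a, ∃ v ∈ s, f v = a)).card := by
      apply Finset.sum_le_sum
      intro s hs
      obtain ⟨x, y, z, hxy, hxz, hyz, rfl⟩ := card_eq_three.1 (hH s hs)
      rw [← TRI_count x y z hxy hxz hyz]
      apply Nat.mul_le_mul_left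
      apply card_le_card
      intro f hf
      rw [mem_filter] at hf ⊢
      refine ⟨mem_univ _, fun a => ?_⟩
      rcases TRI_dec2 _ _ _ hf.2 a with h | h | h
      · exact ⟨x, by simp, h.symm⟩
      · exact ⟨y, by simp, h.symm⟩
      · exact ⟨z, by simp, h.symm⟩
    rw [h2] at h1
    have h4 := lt_of_le_of_lt h3 h1
    simp only [sum_const, smul_eq_mul, card_univ, Fintype.card_fun, Fintype.card_fin] at h4
    have h5 : H.card * (2 * 3 ^ n) = 3 ^ n * (2 * H.card) := by ring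
    omega
  obtain ⟨f, hf⟩ := hex
  refine ⟨f, univ.filter (fun p : Fin 3 → Fin n => (∀ a, f (p a) = a) ∧
    ({p 0, p 1, p 2} : Finset (Fin n)) ∈ H), ?_, ?_, ?_⟩
  · intro p hp
    exact (mem_filter.1 hp).2.1
  · intro p hp
    exact (mem_filter.1 hp).2.2
  · refine hf.trans (Nat.mul_le_mul_left _ ?_)
    have hsub : H.filter (fun s => ∀ a, ∃ v ∈ s, f v = a) ⊆
        (univ.filter (fun p : Fin 3 → Fin n => (∀ a, f (p a) = a) ∧
          ({p 0, p 1, p 2} : Finset (Fin n)) ∈ H)).image (fun p => {p 0, p 1, p 2}) := by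
      intro s hs
      obtain ⟨hsH, hs2⟩ := mem_filter.1 hs
      choose p hp1 hp2 using hs2
      have hne : ∀ a b, a ≠ b → p a ≠ p b := by
        intro a b hab e
        apply hab
        rw [← hp2 a, ← hp2 b, e]
      have hcard : ({p 0, p 1, p 2} : Finset (Fin n)).card = 3 :=
        card_eq_three.2 ⟨_, _, _, hne 0 1 (by decide), hne 0 2 (by decide), hne 1 2 (by decide), rfl⟩
      have hsubs : ({p 0, p 1, p 2} : Finset (Fin n)) ⊆ s := by
        intro v hv
        simp only [mem_insert, mem_singleton] at hv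
        rcases hv with rfl | rfl | rfl
        · exact hp1 0
        · exact hp1 1
        · exact hp1 2
      have heq : ({p 0, p 1, p 2} : Finset (Fin n)) = s :=
        eq_of_subset_of_card_le hsubs (by rw [hcard, hH s hsH])
      rw [mem_image]
      exact ⟨p, mem_filter.2 ⟨mem_univ _, hp2, by rw [heq]; exact hsH⟩, heq⟩
    exact (card_le_card hsub).trans card_image_le

end H773U
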