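import Mathlib
import Pool.Agent.H773R2.UD.Defs

/-!
# UN: the unavoidable hypergraph `T(t,u,t)`
-/

set_option autoImplicit false

namespace H773U

open Finset

theorem UN_lam (n : ℕ) : 1 ≤ Lam n := by
  unfold Lam BB
  exact Nat.one_le_pow _ _ (Nat.succ_pos _)

/-- `x * y ≤ k * E` and `8 * s * k ≤ y * 8`... : the division step. -/
theorem UN_div {s x y z E : ℕ} (hy : 0 < y) (h1 : x * y ≤ z * E) (h2 : s * z ≤ y) :
    s * x ≤ E := by
  have h3 : s * x * y ≤ E * y := by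
    calc s * x * y = s * (x * y) := by ring
      _ ≤ s * (z * E) := Nat.mul_le_mul_left _ h1
      _ = (s * z) * E := by ring
      _ ≤ y * E := Nat.mul_le_mul_right _ h2
      _ = E * y := by ring
  exact Nat.le_of_mul_le_mul_right h3 hy

theorem UN_set {α : Type*} [DecidableEq α] (p : Fin 3 → α) (a b c : Fin 3) (hab : a ≠ b)
    (hac : a ≠ c) (hbc : b ≠ c) : ({p a, p b, p c} : Finset α) = {p 0, p 1, p 2} := by
  fin_cases a <;> fin_cases b <;> fin_cases c <;> simp at hab hac hbc ⊢ <;>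
    (ext x; simp only [Finset.mem_insert, Finset.mem_singleton]; tauto)

theorem UN (hT : S_TRI) (hR : S_RG1) (hC : S_CS) (hB : S_BAS) (hE : S_EM2) (hL : S_LP) : S_UN := by
  intro n H t u hn ht hu hH3 hHc h1 h2 h3
  obtain ⟨f, S, hf, hSH, hcard⟩ := hT n H hH3
  have hSne : S.Nonempty := by
    rw [← Finset.card_pos]
    omega
  obtain ⟨S1, Δ, Γ, hsub, hne, hLc, hdg, hdn, hcg, hcm⟩ := hR n S hn hSne
  have hL1 := UN_lam n
  obtain ⟨hBn, hBs, hBm, hBE, hBp⟩ := hB n S1
  have hBp := hBp hne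
  have hE1 : 1 ≤ S1.card := Finset.card_pos.2 hne
  set L := Lam n with hLdef
  set E := S1.card with hEdef
  have hmain : 2 * H.card ≤ 9 * L * E := by
    calc 2 * H.card ≤ 9 * S.card := hcard
      _ ≤ 9 * (L * E) := Nat.mul_le_mul_left _ hLc
      _ = 9 * L * E := by ring
  have hL9 : 0 < 9 * L := by omega
  have c1 : 16 * L * (t - 1) * n ^ 2 ≤ E := by
    apply Nat.le_of_mul_le_mul_left _ hL9
    calc 9 * L * (16 * L * (t - 1) * n ^ 2) = 2 * (72 * L ^ 2 * (t - 1) * n ^ 2) := by ring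
      _ ≤ 2 * H.card := Nat.mul_le_mul_left _ h1
      _ ≤ 9 * L * E := hmain
  have c2 : 2048 * L ^ 3 * (t * u) ^ 2 * n ≤ E := by
    apply Nat.le_of_mul_le_mul_left _ hL9
    calc 9 * L * (2048 * L ^ 3 * (t * u) ^ 2 * n) = 2 * (9216 * L ^ 4 * (t * u) ^ 2 * n) := by ring
      _ ≤ 2 * H.card := Nat.mul_le_mul_left _ h2
      _ ≤ 9 * L * E := hmain
  have c3 : 8192 * L ^ 3 * (t * u * t) ^ 3 ≤ E := by
    apply Nat.le_of_mul_le_mul_left _ hL9
    calc 9 * L * (8192 * L ^ 3 * (t * u * t) ^ 3) = 2 * (36864 * L ^ 4 * (t * u * t) ^ 3) := by ring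
      _ ≤ 2 * H.card := Nat.mul_le_mul_left _ h3
      _ ≤ 9 * L * E := hmain
  have hF4 : ∀ a b c : Fin 3, a ≠ b → a ≠ c → b ≠ c →
      E * nn S1 a ≤ 2 * L * mm S1 a b * mm S1 a c := by
    intro a b c hab hac hbc
    have h4 := hC n S1 (Δ a) a b c hab hac hbc (hdg a)
    have h5 := hdn a
    apply Nat.le_of_mul_le_mul_left _ hE1
    calc E * (E * nn S1 a) = E ^ 2 * nn S1 a := by ring
      _ ≤ (Δ a * mm S1 a b * mm S1 a c) * nn S1 a := Nat.mul_le_mul_right _ h4
      _ = (Δ a * nn S1 a) * (mm S1 a b * mm S1 a c) := by ring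
      _ ≤ (2 * L * E) * (mm S1 a b * mm S1 a c) := Nat.mul_le_mul_right _ h5
      _ = E * (2 * L * mm S1 a b * mm S1 a c) := by ring
  obtain ⟨a, b, c, hab, hac, hbc, l1, l2, l3, l4, l5, l6⟩ :=
    hL (nn S1) (mm S1) E L n t u hL1 ht hu hE1 (fun a => ⟨(hBp a a).1, hBn a⟩) hBs
      (fun a b _ => ⟨(hBp a b).2, hBm a b⟩) hBE hF4 c1 c2 c3
  obtain ⟨A, B, C, hA, hBi, hCi, hp⟩ :=
    hE n S1 a b c t u t (Δ a) (Δ b) (Δ c) (Γ a b) (Γ a c) hab hac hbc ht hu ht hne
      (hdg a) (hdg b) (hdg c)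
      (UN_div (hBp a a).1 (hdn a) (by calc 8 * (t - 1) * (2 * L) = 16 * L * (t - 1) := by ring
                                        _ ≤ _ := l1))
      (UN_div (hBp b b).1 (hdn b) (by calc 8 * (t * u) * (2 * L) = 16 * L * (t * u) := by ring
                                        _ ≤ _ := l2))
      (UN_div (hBp c c).1 (hdn c) (by calc 8 * (t * u * t) * (2 * L) = 16 * L * (t * u * t) := by ring
                                        _ ≤ _ := l3))
      (fun v v' => hcg a b v v' hab) (fun v v' => hcg a c v v' hac)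
      (by
        have := UN_div (s := 16 * u * nn S1 a) (hBp a b).2 (hcm a b hab)
          (by calc 16 * u * nn S1 a * (2 * L) = 32 * L * u * nn S1 a := by ring
                _ ≤ _ := l4)
        calc 16 * u * Γ a b * nn S1 a = 16 * u * nn S1 a * Γ a b := by ring
          _ ≤ _ := this)
      (by
        have := UN_div (s := 16 * (u * t) * nn S1 a) (hBp a c).2 (hcm a c hac)
          (by calc 16 * (u * t) * nn S1 a * (2 * L) = 32 * L * (u * t) * nn S1 a := by ring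
                _ ≤ _ := l5)
        calc 16 * (u * t) * Γ a c * nn S1 a = 16 * (u * t) * nn S1 a * Γ a c := by ring
          _ ≤ _ := this)
      l6
  have j0 : Fin u := ⟨0, hu⟩
  have l0 : Fin t := ⟨0, ht⟩
  have hfA : ∀ i, f (A i) = a := by
    intro i
    obtain ⟨p, hpS, hpa, _, _⟩ := hp i j0 l0
    rw [← hpa]
    exact hf p (hsub hpS) a
  have hfB : ∀ i j, f (B (i, j)) = b := by
    intro i j
    obtain ⟨p, hpS, _, hpb, _⟩ := hp i j l0
    rw [← hpb]
    exact hf p (hsub hpS) b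
  have hfC : ∀ i j l, f (C (i, j, l)) = c := by
    intro i j l
    obtain ⟨p, hpS, _, _, hpc⟩ := hp i j l
    rw [← hpc]
    exact hf p (hsub hpS) c
  refine ⟨Sum.elim (Sum.elim A B) C, ?_, ?_⟩
  · refine (Sum.elim_injective ).2 ⟨(Sum.elim_injective).2 ⟨hA, hBi, ?_⟩, hCi, ?_⟩
    · rintro i ⟨i', j⟩ h
      exact hab (by rw [← hfA i, h, hfB])
    · rintro (i | ⟨i, j⟩) ⟨i', j', l'⟩ h
      · exact hac (by rw [← hfA i, ← hfC i' j' l', ← h]; rfl)
      · exact hbc (by rw [← hfB i j, ← hfC i' j' l', ← h]; rfl)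
  · intro i j l
    obtain ⟨p, hpS, hpa, hpb, hpc⟩ := hp i j l
    simp only [Sum.elim_inl, Sum.elim_inr]
    rw [← hpa, ← hpb, ← hpc, UN_set p a b c hab hac hbc]
    exact hSH p (hsub hpS)

end H773U
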