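import Pool.Agent.H773R2.UD.Defs

namespace H773U

open Finset

theorem UP_Lam_pos (n : ℕ) : 1 ≤ Lam n := by
  unfold Lam BB
  exact Nat.one_le_pow _ _ (by omega)

theorem UP (hGR : S_GR) (hOV2 : S_OV2) (hOVA : S_OVA) (hUN : S_UN) (hCOM : S_COM) (hONE : S_ONE)
    (hPAR : S_PAR) (hLOG : S_LOG) : S_UP := by
  intro k n hk hn
  set β : ℝ := 2 - 4 / (3 * (k : ℝ) - 1) with hβ
  have hk3 : (3 : ℝ) ≤ (k : ℝ) := by exact_mod_cast hk
  have hden : (8 : ℝ) ≤ 3 * (k : ℝ) - 1 := by linarith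
  have h1 : 4 / (3 * (k : ℝ) - 1) ≤ 1 / 2 := by
    rw [div_le_div_iff₀ (by linarith) (by norm_num)]
    linarith
  have h0 : 0 ≤ 4 / (3 * (k : ℝ) - 1) := div_nonneg (by norm_num) (by linarith)
  have hβ1 : 3 / 2 ≤ β := by rw [hβ]; linarith
  have hβ2 : β ≤ 2 := by rw [hβ]; linarith
  set L := Lam n with hL
  have hL1 : 1 ≤ L := UP_Lam_pos n
  have hL1' : (1 : ℝ) ≤ (L : ℝ) := by exact_mod_cast hL1
  set M : ℝ := 36864 * (L : ℝ) ^ 4 * (n : ℝ) ^ β with hM
  have hn1 : (1 : ℝ) ≤ (n : ℝ) := by exact_mod_cast (by omega : 1 ≤ n)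
  have hnβ : (1 : ℝ) ≤ (n : ℝ) ^ β := Real.one_le_rpow hn1 (by linarith)
  have hL4 : (1 : ℝ) ≤ (L : ℝ) ^ 4 := one_le_pow₀ hL1'
  have hM1 : 1 ≤ M := by
    rw [hM]
    nlinarith
  have hMβ : (n : ℝ) ^ β ≤ M := by
    rw [hM]
    have : (1 : ℝ) ≤ 36864 * (L : ℝ) ^ 4 := by linarith
    nlinarith
  have key : ∃ t : ℕ, (t : ℝ) ≤ M * (1 + 3 * Real.log n) ∧ Suff k n 3 t := by
    apply hGR n k M (by omega) (by omega) hM1
    intro H e he hH3 hHe
    have he3 : e ≤ n ^ 3 := by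
      have h0k : 0 < k := by omega
      have hsub : H ⟨0, h0k⟩ ⊆ powersetCard 3 univ := by
        intro s hs
        rw [mem_powersetCard]
        exact ⟨subset_univ _, hH3 _ s hs⟩
      have := card_le_card hsub
      rw [card_powersetCard, card_univ, Fintype.card_fin, hHe] at this
      exact this.trans (Nat.choose_le_pow n 3)
    by_cases hcase : (n : ℝ) ^ (3 * β / 2) ≤ (e : ℝ)
    · obtain ⟨D, hD, hDe⟩ := hOV2 n k H e (by omega) hH3 hHe
      refine ⟨D, hD, ?_⟩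
      intro i
      have := hOVA n k e (D i).card hn hk he hcase (hDe i)
      calc (e : ℝ) ≤ (n : ℝ) ^ β * ((D i).card : ℝ) := this
        _ ≤ M * ((D i).card : ℝ) := mul_le_mul_of_nonneg_right hMβ (by positivity)
    · push Not at hcase
      rcases hPAR n e L β hn he hL1 hβ1 hβ2 he3 hcase.le with h | ⟨t, u, ht, hu, c1, c2, c3, hbig⟩
      · have hT : ∀ i, ContainsT (H i) 1 1 1 := by
          intro i
          apply hONE n (H i) (hH3 i)
          rw [← card_pos, hHe i]; omega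
        obtain ⟨D, hD, hDc⟩ := hCOM n k H 1 1 1 le_rfl le_rfl le_rfl hT
        refine ⟨D, hD, ?_⟩
        intro i
        rw [hDc i]
        simpa using h
      · have hT : ∀ i, ContainsT (H i) t u t := by
          intro i
          apply hUN n (H i) t u (by omega) ht hu (hH3 i)
          · rw [hHe i]; exact he
          · rw [hHe i]; exact c1
          · rw [hHe i]; exact c2
          · rw [hHe i]; exact c3
        obtain ⟨D, hD, hDc⟩ := hCOM n k H t u t ht hu ht hT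
        refine ⟨D, hD, ?_⟩
        intro i
        rw [hDc i]
        exact hbig
  obtain ⟨t, ht, hs⟩ := key
  refine ⟨⟨t, hs⟩, ?_⟩
  have hU : U k n 3 ≤ t := Nat.sInf_le hs
  have hU' : (U k n 3 : ℝ) ≤ (t : ℝ) := by exact_mod_cast hU
  have := hLOG n β hn (by linarith)
  calc (U k n 3 : ℝ) ≤ t := hU'
    _ ≤ M * (1 + 3 * Real.log n) := ht
    _ ≤ _ := this

end H773U
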